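import Pool.Agent.Lib.MP_8f66f0_al_ZSS.All
import Pool.Agent.Lib.MP_8f66f0_al_ZA.Ord

/-!
# PROJECT ZERO, part SS: the statement of the architecture file
-/

set_option autoImplicit false

namespace Pool.Agent.ZSS

/-- **Part SS**, in the form of `ZA/Ord.lean`. -/
theorem za_SS : ZA.S_SS := all_SS

end Pool.Agent.ZSS
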