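import Pool.Agent.Lib.MP_8f66f0_al_ZSS.Spec

/-!
# `S_car`: there is a chain map carried by an acyclic carrier
-/

set_option autoImplicit false

namespace Pool.Agent.ZSS

open Pool.Agent.Lib.SingHom

section

variable {Y Z : Type}

open Classical in
/-- a chain of `B` with the given boundary -/
private noncomputable def Car_fill (B : TP Z) (n : ℕ) (y : Ch ℤ Z n) : Ch ℤ Z (n + 1) :=
  if h : ∃ x ∈ supp ℤ (B (n + 1)), bd ℤ n x = y then h.choose else 0

private theorem Car_fill_spec {B : TP Z} {n : ℕ} {y : Ch ℤ Z n}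
    (h : ∃ x ∈ supp ℤ (B (n + 1)), bd ℤ n x = y) :
    Car_fill B n y ∈ supp ℤ (B (n + 1)) ∧ bd ℤ n (Car_fill B n y) = y := by
  have e : Car_fill B n y = h.choose := dif_pos h
  rw [e]
  exact h.choose_spec

open Classical in
/-- a tuple of `B` of length one -/
private noncomputable def Car_pt (B : TP Z) : Ch ℤ Z 0 :=
  if h : ∃ u, B 0 u then Finsupp.single h.choose 1 else 0

private theorem Car_pt_spec {B : TP Z} (h : ∃ u, B 0 u) :
    Car_pt B ∈ supp ℤ (B 0) ∧ eps ℤ (Car_pt B) = 1 := by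
  have e : Car_pt B = Finsupp.single h.choose 1 := dif_pos h
  rw [e]
  exact ⟨single_mem_supp ℤ h.choose_spec 1, eps_single ℤ _ _⟩

/-- the chain map -/
private noncomputable def Car_f (T : ∀ n : ℕ, (Fin (n + 1) → Y) → TP Z) :
    ∀ n : ℕ, Ch ℤ Y n →ₗ[ℤ] Ch ℤ Z n
  | 0 => Finsupp.linearCombination ℤ (fun w => Car_pt (T 0 w))
  | n + 1 => Finsupp.linearCombination ℤ
      (fun w => Car_fill (T (n + 1) w) n (Car_f T n (bd ℤ n (Finsupp.single w 1))))

private theorem Car_f_zero (T : ∀ n : ℕ, (Fin (n + 1) → Y) → TP Z) (w : Fin 1 → Y) :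
    Car_f T 0 (Finsupp.single w 1) = Car_pt (T 0 w) := by
  rw [Car_f, Finsupp.linearCombination_single, one_smul]

private theorem Car_f_succ (T : ∀ n : ℕ, (Fin (n + 1) → Y) → TP Z) (n : ℕ) (w : Fin (n + 2) → Y) :
    Car_f T (n + 1) (Finsupp.single w 1) =
      Car_fill (T (n + 1) w) n (Car_f T n (bd ℤ n (Finsupp.single w 1))) := by
  rw [Car_f, Finsupp.linearCombination_single, one_smul]

/-- two linear maps which agree on the tuples of `S` agree on its chains -/
private theorem Car_ext {α M : Type} [AddCommGroup M] {P : α → Prop} {g g' : (α →₀ ℤ) →ₗ[ℤ] M}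
    (h : ∀ v, P v → g (Finsupp.single v 1) = g' (Finsupp.single v 1)) {c : α →₀ ℤ}
    (hc : c ∈ supp ℤ P) : g c = g' c := by
  have h1 : (g - g') c ∈ (⊥ : Submodule ℤ M) := by
    refine supp_map ℤ (g - g') (fun v hv => ?_) hc
    rw [LinearMap.sub_apply, h v hv, sub_self]
    exact Submodule.zero_mem _
  rw [Submodule.mem_bot, LinearMap.sub_apply] at h1
  exact sub_eq_zero.1 h1

private theorem Car_bd_mem {S : TP Y} (hS : Fc S) (n : ℕ) (w : Fin (n + 2) → Y)
    (hw : S (n + 1) w) : bd ℤ n (Finsupp.single w 1) ∈ supp ℤ (S n) := by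
  rw [bd_single, bdv]
  refine Submodule.sum_mem _ fun i _ => Submodule.smul_mem _ _ ?_
  exact single_mem_supp ℤ (hS n w i hw) 1

end

theorem car : S_car := by
  intro Y Z S T hS hT
  have hE : ∀ z ∈ supp ℤ (S 0), eps ℤ (Car_f T 0 z) = eps ℤ z := by
    intro z hz
    have := Car_ext (g := (eps ℤ).comp (Car_f T 0)) (g' := eps ℤ) (P := S 0) (fun v hv => ?_) hz
    · exact this
    · rw [LinearMap.comp_apply, Car_f_zero, (Car_pt_spec (hT.acy 0 v hv).ne).2, eps_single]
  have hmem : ∀ n, (∀ w, S n w → Car_f T n (Finsupp.single w 1) ∈ supp ℤ (T n w n)) →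
      ∀ w, S (n + 1) w → Car_f T n (bd ℤ n (Finsupp.single w 1)) ∈ supp ℤ (T (n + 1) w n) := by
    intro n ih w hw
    rw [bd_single, bdv, map_sum]
    refine Submodule.sum_mem _ fun i _ => ?_
    rw [map_smul]
    refine Submodule.smul_mem _ _ ?_
    exact supp_mono ℤ (fun u hu => hT.mono n w i hw n u hu) (ih _ (hS n w i hw))
  have key : ∀ n, (∀ w, S n w → Car_f T n (Finsupp.single w 1) ∈ supp ℤ (T n w n)) ∧
      ∀ w, S (n + 1) w → Car_f T (n + 1) (Finsupp.single w 1) ∈ supp ℤ (T (n + 1) w (n + 1)) ∧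
        bd ℤ n (Car_f T (n + 1) (Finsupp.single w 1)) =
          Car_f T n (bd ℤ n (Finsupp.single w 1)) := by
    intro n
    induction n with
    | zero =>
      have h0 : ∀ w, S 0 w → Car_f T 0 (Finsupp.single w 1) ∈ supp ℤ (T 0 w 0) := by
        intro w hw
        rw [Car_f_zero]
        exact (Car_pt_spec (hT.acy 0 w hw).ne).1
      refine ⟨h0, fun w hw => ?_⟩
      rw [Car_f_succ]
      refine Car_fill_spec ?_
      refine (hT.acy 1 w hw).zero _ (hmem 0 h0 w hw) ?_
      rw [hE _ (Car_bd_mem hS 0 w hw), eps_bd]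
    | succ n ih =>
      have h0 : ∀ w, S (n + 1) w →
          Car_f T (n + 1) (Finsupp.single w 1) ∈ supp ℤ (T (n + 1) w (n + 1)) :=
        fun w hw => (ih.2 w hw).1
      refine ⟨h0, fun w hw => ?_⟩
      rw [Car_f_succ]
      refine Car_fill_spec ?_
      refine (hT.acy (n + 2) w hw).succ n _ (hmem (n + 1) h0 w hw) ?_
      have h1 : bd ℤ n (Car_f T (n + 1) (bd ℤ (n + 1) (Finsupp.single w 1))) =
          Car_f T n (bd ℤ n (bd ℤ (n + 1) (Finsupp.single w 1))) :=
        Car_ext (g := (bd ℤ n).comp (Car_f T (n + 1))) (g' := (Car_f T n).comp (bd ℤ n))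
          (P := S (n + 1)) (fun v hv => (ih.2 v hv).2) (Car_bd_mem hS (n + 1) w hw)
      rw [h1, bd_bd, map_zero]
  refine ⟨Car_f T, fun n => (key n).1, hE, fun n z hz => ?_⟩
  exact Car_ext (g := (bd ℤ n).comp (Car_f T (n + 1))) (g' := (Car_f T n).comp (bd ℤ n))
    (P := S (n + 1)) (fun v hv => ((key n).2 v hv).2) hz

end Pool.Agent.ZSS
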