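import Pool.Agent.Lib.MP_8f66f0_al_ZSS.Spec

/-! PROJECT ZERO, part SS, module Con: the conical contraction. -/

set_option autoImplicit false

namespace Pool.Agent.ZSS

open Pool.Agent.Lib.SingHom

/-- The prism operator. -/
noncomputable def Con_H {Z : Type} (f : Z → Z) : (n : ℕ) → Ch ℤ Z n →ₗ[ℤ] Ch ℤ Z (n + 1)
  | 0 => Finsupp.linearCombination ℤ (fun v => cone ℤ (v 0) 0 (mp ℤ f 0 (Finsupp.single v 1)))
  | n + 1 => Finsupp.linearCombination ℤ (fun v => cone ℤ (v 0) (n + 1)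
      (mp ℤ f (n + 1) (Finsupp.single v 1) - Con_H f n (Finsupp.single (Fin.tail v) 1)))

theorem Con_H_zero {Z : Type} (f : Z → Z) (v : Fin 1 → Z) :
    Con_H f 0 (Finsupp.single v 1) = cone ℤ (v 0) 0 (mp ℤ f 0 (Finsupp.single v 1)) := by
  rw [Con_H, Finsupp.linearCombination_single, one_smul]

theorem Con_H_succ {Z : Type} (f : Z → Z) (n : ℕ) (v : Fin (n + 2) → Z) :
    Con_H f (n + 1) (Finsupp.single v 1) = cone ℤ (v 0) (n + 1)
      (mp ℤ f (n + 1) (Finsupp.single v 1) - Con_H f n (Finsupp.single (Fin.tail v) 1)) := by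
  rw [Con_H, Finsupp.linearCombination_single, one_smul]

theorem Con_H_cone {Z : Type} (f : Z → Z) (n : ℕ) (b : Z) (c : Ch ℤ Z n) :
    Con_H f (n + 1) (cone ℤ b n c) = cone ℤ b (n + 1)
      (mp ℤ f (n + 1) (cone ℤ b n c) - Con_H f n c) := by
  have h : (Con_H f (n + 1)) ∘ₗ (cone ℤ b n) = (cone ℤ b (n + 1)) ∘ₗ
      ((mp ℤ f (n + 1)) ∘ₗ (cone ℤ b n) - Con_H f n) := by
    apply lin_ext
    intro v
    rw [LinearMap.comp_apply, LinearMap.comp_apply, LinearMap.sub_apply, LinearMap.comp_apply,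
      cone_single, Con_H_succ, Fin.cons_zero, Fin.tail_cons]
  exact LinearMap.congr_fun h c

theorem Con_bd_zero {Z : Type} (f : Z → Z) (z : Ch ℤ Z 0) :
    bd ℤ 0 (Con_H f 0 z) = mp ℤ f 0 z - z := by
  have h : (bd ℤ 0) ∘ₗ (Con_H f 0) = mp ℤ f 0 - LinearMap.id := by
    apply lin_ext
    intro v
    rw [LinearMap.comp_apply, LinearMap.sub_apply, LinearMap.id_apply, Con_H_zero, mp_single,
      bd_cone_zero, eps_single, one_smul]
    congr 2
    funext i
    have hi : i = 0 := Fin.ext (by omega)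
    rw [hi]
  exact LinearMap.congr_fun h z

theorem Con_bd_succ {Z : Type} (f : Z → Z) (n : ℕ) (z : Ch ℤ Z (n + 1)) :
    bd ℤ (n + 1) (Con_H f (n + 1) z) + Con_H f n (bd ℤ n z) = mp ℤ f (n + 1) z - z := by
  have key : ∀ n, (bd ℤ (n + 1)) ∘ₗ (Con_H f (n + 1)) + (Con_H f n) ∘ₗ (bd ℤ n) =
      mp ℤ f (n + 1) - LinearMap.id := by
    intro n
    induction n with
    | zero =>
      apply lin_ext
      intro v
      obtain ⟨b, t, rfl⟩ : ∃ b, ∃ t : Fin 1 → Z, v = Fin.cons b t :=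
        ⟨v 0, Fin.tail v, (Fin.cons_self_tail v).symm⟩
      have hb : bd ℤ 0 (Finsupp.single (Fin.cons b t : Fin 2 → Z) (1 : ℤ)) =
          Finsupp.single t 1 - Finsupp.single (fun _ => b) 1 := by
        rw [← cone_single, bd_cone_zero, eps_single, one_smul]
      have h0 : Con_H f 0 (Finsupp.single (fun _ => b) 1) =
          cone ℤ b 0 (mp ℤ f 0 (Finsupp.single (fun _ => b) 1)) := Con_H_zero f _
      rw [LinearMap.add_apply, LinearMap.comp_apply, LinearMap.comp_apply, LinearMap.sub_apply,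
        LinearMap.id_apply, Con_H_succ, Fin.cons_zero, Fin.tail_cons, bd_cone, map_sub, bd_mp, hb,
        Con_bd_zero, ← cone_single]
      simp only [map_sub, h0]
      abel
    | succ n ih =>
      apply lin_ext
      intro v
      obtain ⟨b, t, rfl⟩ : ∃ b, ∃ t : Fin (n + 2) → Z, v = Fin.cons b t :=
        ⟨v 0, Fin.tail v, (Fin.cons_self_tail v).symm⟩
      have hb := bd_cone_single ℤ b t
      have h1 := LinearMap.congr_fun ih (Finsupp.single t 1)
      rw [LinearMap.add_apply, LinearMap.comp_apply, LinearMap.comp_apply, LinearMap.sub_apply,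
        LinearMap.id_apply] at h1
      have h2 : bd ℤ (n + 1) (Con_H f (n + 1) (Finsupp.single t 1)) =
          mp ℤ f (n + 1) (Finsupp.single t 1) - Finsupp.single t 1 -
            Con_H f n (bd ℤ n (Finsupp.single t 1)) := by
        rw [← h1]
        abel
      rw [LinearMap.add_apply, LinearMap.comp_apply, LinearMap.comp_apply, LinearMap.sub_apply,
        LinearMap.id_apply, Con_H_succ, Fin.cons_zero, Fin.tail_cons, bd_cone, map_sub, bd_mp, hb,
        h2, ← cone_single]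
      simp only [map_sub, Con_H_cone]
      abel
  exact LinearMap.congr_fun (key n) z

section

variable {Z : Type} [PartialOrder Z]

theorem Con_cone_mem {K : Set Z} {b : Z} (hb : b ∈ K) (n : ℕ) {c : Ch ℤ Z n}
    (hc : c ∈ supp ℤ (fun u => Mo K n u ∧ ∀ j, b ≤ u j)) :
    cone ℤ b n c ∈ supp ℤ (fun u => Mo K (n + 1) u ∧ ∀ j, b ≤ u j) := by
  refine supp_map ℤ (cone ℤ b n) ?_ hc
  rintro u ⟨⟨hm, hk⟩, hle⟩
  rw [cone_single]
  apply single_mem_supp
  refine ⟨⟨?_, ?_⟩, ?_⟩
  · intro i j hij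
    induction i using Fin.cases with
    | zero =>
      induction j using Fin.cases with
      | zero => exact le_refl _
      | succ j =>
        rw [Fin.cons_zero, Fin.cons_succ]
        exact hle j
    | succ i =>
      induction j using Fin.cases with
      | zero =>
        exfalso
        exact absurd hij (not_le.mpr (Fin.succ_pos i))
      | succ j =>
        rw [Fin.cons_succ, Fin.cons_succ]
        exact hm (Fin.succ_le_succ_iff.mp hij)
  · intro i
    induction i using Fin.cases with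
    | zero =>
      rw [Fin.cons_zero]
      exact hb
    | succ i =>
      rw [Fin.cons_succ]
      exact hk i
  · intro i
    induction i using Fin.cases with
    | zero =>
      rw [Fin.cons_zero]
    | succ i =>
      rw [Fin.cons_succ]
      exact hle i

theorem Con_H_mem {K : Set Z} {f : Z → Z} (hf : ∀ y ∈ K, f y ∈ K) (hle : ∀ y ∈ K, y ≤ f y)
    (hmo : ∀ y ∈ K, ∀ y' ∈ K, y ≤ y' → f y ≤ f y') (n : ℕ) :
    ∀ v : Fin (n + 1) → Z, Mo K n v → Con_H f n (Finsupp.single v 1) ∈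
      supp ℤ (fun u => Mo K (n + 1) u ∧ ∀ j, v 0 ≤ u j) := by
  have hfv : ∀ (n : ℕ) (v : Fin (n + 1) → Z), Mo K n v → mp ℤ f n (Finsupp.single v 1) ∈
      supp ℤ (fun u => Mo K n u ∧ ∀ j, v 0 ≤ u j) := by
    intro n v hv
    rw [mp_single]
    apply single_mem_supp
    exact ⟨⟨fun i j hij => hmo _ (hv.2 i) _ (hv.2 j) (hv.1 hij), fun i => hf _ (hv.2 i)⟩,
      fun j => (hv.1 (Fin.zero_le j)).trans (hle _ (hv.2 j))⟩
  induction n with
  | zero =>
    intro v hv
    rw [Con_H_zero]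
    exact Con_cone_mem (hv.2 0) 0 (hfv 0 v hv)
  | succ n ih =>
    intro v hv
    rw [Con_H_succ]
    refine Con_cone_mem (hv.2 0) (n + 1) (Submodule.sub_mem _ (hfv (n + 1) v hv) ?_)
    have ht : Mo K n (Fin.tail v) := by
      refine ⟨fun i j hij => ?_, fun i => ?_⟩
      · exact hv.1 (Fin.succ_le_succ_iff.mpr hij)
      · exact hv.2 i.succ
    refine supp_mono ℤ ?_ (ih (Fin.tail v) ht)
    rintro u ⟨hu, hu2⟩
    exact ⟨hu, fun j => (hv.1 (Fin.zero_le _)).trans (hu2 j)⟩

end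

theorem con : S_con := by
  intro Z _ K f c hc hf hle hcf hmo
  have hH : ∀ (n : ℕ) (z : Ch ℤ Z n), z ∈ supp ℤ (Mo K n) → Con_H f n z ∈ supp ℤ (Mo K (n + 1)) := by
    intro n z hz
    refine supp_map ℤ (Con_H f n) (fun v hv => ?_) hz
    exact supp_mono ℤ (fun u hu => hu.1) (Con_H_mem hf hle hmo n v hv)
  have hC : ∀ (n : ℕ) (z : Ch ℤ Z n), z ∈ supp ℤ (Mo K n) →
      cone ℤ c n (mp ℤ f n z) ∈ supp ℤ (Mo K (n + 1)) := by
    intro n z hz
    refine supp_mono ℤ (fun u hu => hu.1) (Con_cone_mem hc n (supp_map ℤ (mp ℤ f n)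
      (fun v hv => ?_) hz))
    rw [mp_single]
    apply single_mem_supp
    exact ⟨⟨fun i j hij => hmo _ (hv.2 i) _ (hv.2 j) (hv.1 hij), fun i => hf _ (hv.2 i)⟩,
      fun j => hcf _ (hv.2 j)⟩
  refine ⟨⟨fun _ => c, fun i j _ => le_refl _, fun _ => hc⟩, ?_, ?_⟩
  · intro z hz he
    refine ⟨cone ℤ c 0 (mp ℤ f 0 z) - Con_H f 0 z, Submodule.sub_mem _ (hC 0 z hz) (hH 0 z hz), ?_⟩
    have hem : eps ℤ (mp ℤ f 0 z) = 0 := by
      have h : (eps ℤ) ∘ₗ (mp ℤ f 0) = eps ℤ (Y := Z) := by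
        apply lin_ext
        intro v
        rw [LinearMap.comp_apply, mp_single, eps_single, eps_single]
      have := LinearMap.congr_fun h z
      rw [LinearMap.comp_apply] at this
      rw [this, he]
    rw [map_sub, bd_cone_zero, hem, zero_smul, Con_bd_zero]
    abel
  · intro n z hz hb
    refine ⟨cone ℤ c (n + 1) (mp ℤ f (n + 1) z) - Con_H f (n + 1) z,
      Submodule.sub_mem _ (hC (n + 1) z hz) (hH (n + 1) z hz), ?_⟩
    have h1 := Con_bd_succ f n z
    rw [hb, map_zero, add_zero] at h1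
    rw [map_sub, bd_cone, bd_mp, hb, map_zero, map_zero, sub_zero, h1]
    abel

end Pool.Agent.ZSS
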