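import Pool.Agent.Lib.MP_8f66f0_al_ZSS.SpecG

/-!
# PROJECT ZERO, part SS: automorphisms which are finite on `W` and on `L ⧸ W`
-/

set_option autoImplicit false

namespace Pool.Agent.ZSS

open Pool.Agent.Lib.SingHom

section

variable {L : Type} [AddCommGroup L] {W : Submodule ℤ L} {U : Type} [Group U]
  {θ : U →* (L ≃ₗ[ℤ] L)}

private theorem Ext_stab (hW : ∀ u, ∀ x ∈ W, θ u x ∈ W) (q : θ.range) {x : L} (hx : x ∈ W) :
    q.1 x ∈ W := by
  obtain ⟨u, hu⟩ := q.2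
  rw [← hu]
  exact hW u x hx

private theorem Ext_mul (q q' : L ≃ₗ[ℤ] L) (x : L) : (q * q') x = q (q' x) := rfl

private theorem Ext_inv (q : L ≃ₗ[ℤ] L) (x : L) : q⁻¹ (q x) = x := q.symm_apply_apply x

private theorem Ext_inv' (q : L ≃ₗ[ℤ] L) (x : L) : q (q⁻¹ x) = x := q.apply_symm_apply x

variable (W θ) in
/-- the automorphisms which are trivial on `W` and on `L ⧸ W` -/
private def Ext_N : Subgroup θ.range where
  carrier := {q | (∀ w ∈ W, q.1 w = w) ∧ ∀ x, q.1 x - x ∈ W}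
  one_mem' := ⟨fun w _ => rfl, fun x => by
    have h : (1 : θ.range).1 x = x := rfl
    rw [h, sub_self]
    exact W.zero_mem⟩
  mul_mem' := by
    rintro q q' ⟨h1, h2⟩ ⟨h3, h4⟩
    refine ⟨fun w hw => ?_, fun x => ?_⟩
    · change (q.1 * q'.1) w = w
      rw [Ext_mul, h3 w hw, h1 w hw]
    · change (q.1 * q'.1) x - x ∈ W
      have e : (q.1 * q'.1) x - x = (q.1 (q'.1 x) - q'.1 x) + (q'.1 x - x) := by
        rw [Ext_mul]
        abel
      rw [e]
      exact W.add_mem (h2 _) (h4 _)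
  inv_mem' := by
    rintro q ⟨h1, h2⟩
    refine ⟨fun w hw => ?_, fun x => ?_⟩
    · change q.1⁻¹ w = w
      conv_lhs => rw [← h1 w hw]
      rw [Ext_inv]
    · change q.1⁻¹ x - x ∈ W
      have e : q.1⁻¹ x - x = -(q.1 (q.1⁻¹ x) - q.1⁻¹ x) := by
        rw [Ext_inv']
        abel
      rw [e]
      exact W.neg_mem (h2 _)

private theorem Ext_mem {q : θ.range} :
    q ∈ Ext_N W θ ↔ (∀ w ∈ W, q.1 w = w) ∧ ∀ x, q.1 x - x ∈ W := Iff.rfl

private theorem Ext_normal (hW : ∀ u, ∀ x ∈ W, θ u x ∈ W) : (Ext_N W θ).Normal := by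
  constructor
  rintro n ⟨h1, h2⟩ g
  refine ⟨fun w hw => ?_, fun x => ?_⟩
  · change (g.1 * n.1 * g.1⁻¹) w = w
    have h3 : g.1⁻¹ w ∈ W := Ext_stab hW g⁻¹ hw
    rw [Ext_mul, Ext_mul, h1 _ h3, Ext_inv']
  · change (g.1 * n.1 * g.1⁻¹) x - x ∈ W
    have e : (g.1 * n.1 * g.1⁻¹) x - x = g.1 (n.1 (g.1⁻¹ x) - g.1⁻¹ x) := by
      rw [Ext_mul, Ext_mul, map_sub, Ext_inv']
    rw [e]
    exact Ext_stab hW g (h2 _)

private theorem Ext_comm (q q' : Ext_N W θ) : q * q' = q' * q := by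
  have h : ∀ (a b : Ext_N W θ) (x : L), a.1.1 (b.1.1 x) = a.1.1 x + b.1.1 x - x := by
    intro a b x
    have h1 : a.1.1 (b.1.1 x - x) = b.1.1 x - x := a.2.1 _ (b.2.2 x)
    rw [map_sub, sub_eq_iff_eq_add] at h1
    rw [h1]
    abel
  apply Subtype.ext
  apply Subtype.ext
  apply LinearEquiv.ext
  intro x
  change q.1.1 (q'.1.1 x) = q'.1.1 (q.1.1 x)
  rw [h, h, add_comm (q.1.1 x)]

end

theorem ext : S_ext := by
  classical
  intro L _ W U _ θ hW hf1 hf2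
  have hn := Ext_normal hW
  refine FH.EAm.ext (Ext_N W θ) (FH.EAm.ab Ext_comm) (FH.EAm.fin ?_)
  have hF1 : Finite {f : W → L | ∃ u, ∀ x, f x = θ u x} := hf1
  have hF2 : Finite {f : L → L ⧸ W | ∃ u, ∀ x, f x = Submodule.Quotient.mk (θ u x)} := hf2
  let φ : θ.range ⧸ Ext_N W θ → {f : W → L | ∃ u, ∀ x, f x = θ u x} ×
      {f : L → L ⧸ W | ∃ u, ∀ x, f x = Submodule.Quotient.mk (θ u x)} := fun c =>
    (⟨fun x => c.out.1 x, by
      obtain ⟨u, hu⟩ := c.out.2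
      exact ⟨u, fun x => by rw [← hu]⟩⟩,
    ⟨fun x => Submodule.Quotient.mk (c.out.1 x), by
      obtain ⟨u, hu⟩ := c.out.2
      exact ⟨u, fun x => by rw [← hu]⟩⟩)
  refine Finite.of_injective φ ?_
  intro c c' h
  have h1 : (fun x : W => c.out.1 (x : L)) = fun x : W => c'.out.1 (x : L) :=
    congrArg Subtype.val (congrArg Prod.fst h)
  have h2 : (fun x : L => (Submodule.Quotient.mk (c.out.1 x) : L ⧸ W)) =
      fun x : L => Submodule.Quotient.mk (c'.out.1 x) :=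
    congrArg Subtype.val (congrArg Prod.snd h)
  rw [← QuotientGroup.out_eq' c, ← QuotientGroup.out_eq' c', QuotientGroup.eq]
  refine ⟨fun w hw => ?_, fun x => ?_⟩
  · change (c.out.1⁻¹ * c'.out.1) w = w
    have h3 : c.out.1 w = c'.out.1 w := congrFun h1 ⟨w, hw⟩
    rw [Ext_mul, ← h3, Ext_inv]
  · change (c.out.1⁻¹ * c'.out.1) x - x ∈ W
    have h3 : (Submodule.Quotient.mk (c.out.1 x) : L ⧸ W) =
      Submodule.Quotient.mk (c'.out.1 x) := congrFun h2 x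
    have h4 : c'.out.1 x - c.out.1 x ∈ W := (Submodule.Quotient.eq W).1 h3.symm
    have e : (c.out.1⁻¹ * c'.out.1) x - x = c.out.1⁻¹ (c'.out.1 x - c.out.1 x) := by
      rw [Ext_mul, map_sub, Ext_inv]
    rw [e]
    exact Ext_stab hW c.out⁻¹ h4

end Pool.Agent.ZSS
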