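import Pool.Agent.Lib.MP_8f66f0_al_ZSS.SpecL

/-! # PROJECT ZERO, part SS: the number of almost minimal vectors -/

set_option autoImplicit false

namespace Pool.Agent.ZSS

open Pool.Agent.Lib.SingHom

private theorem Fin_pair {L : Type} [AddCommGroup L] {A : L → ℝ} {v w b : L} (hv : A ∈ Uv v)
    (hw : A ∈ Uv w) (h : v - w = b + b) : w = v ∨ w = -v := by
  have h1 : v = (v - b) + b := by abel
  have h2 : w = (v - b) - b := by
    have : w = v - (v - w) := by abel
    rw [h] at this
    rw [this]
    abel
  have h3 := hv.1.1 (v - b) b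
  rw [← h1, ← h2] at h3
  by_cases ha : v - b = 0
  · right
    have hb : v = b := sub_eq_zero.1 ha
    rw [h2, ha, zero_sub, hb]
  · by_cases hb : b = 0
    · left
      rw [h2, hb, sub_zero, sub_zero]
    · exfalso
      have h4 := hv.2.2 (v - b) ha
      have h5 := hw.2.2 b hb
      linarith

theorem fin : S_fin := by
  intro L _ _ _
  classical
  let b := Module.finBasis ℤ L
  let q : L → (Fin (Module.finrank ℤ L) → ZMod 2) := fun v i => ((b.repr v i : ℤ) : ZMod 2)
  refine ⟨2 * Fintype.card (Fin (Module.finrank ℤ L) → ZMod 2), ?_⟩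
  intro A
  have hfin : {v | A ∈ Uv v}.Finite := by
    by_cases h : ∃ v, A ∈ Uv v
    · obtain ⟨v, hv⟩ := h
      refine (hv.1.2.2 (2 * A v)).subset ?_
      intro w hw
      exact (hw.2.2 v hv.2.1).le
    · have : {v | A ∈ Uv v} = ∅ := by
        ext v
        constructor
        · intro hv
          exact (h ⟨v, hv⟩).elim
        · intro hv
          exact hv.elim
      rw [this]
      exact Set.finite_empty
  refine ⟨hfin, ?_⟩
  rw [Set.ncard_eq_toFinset_card _ hfin]
  refine (Finset.card_le_mul_card_image (f := q) hfin.toFinset 2 ?_).trans ?_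
  · intro a ha
    obtain ⟨v, hv, hva⟩ := Finset.mem_image.1 ha
    refine (Finset.card_le_card (t := {v, -v}) ?_).trans Finset.card_le_two
    intro w hw
    obtain ⟨hw1, hw2⟩ := Finset.mem_filter.1 hw
    have h1 : q v = q w := hva.trans hw2.symm
    have h2 : ∀ i, ∃ c : ℤ, b.repr v i - b.repr w i = 2 * c := by
      intro i
      have h3 := congrFun h1 i
      have h4 : (((b.repr v i - b.repr w i : ℤ)) : ZMod 2) = 0 := by
        rw [Int.cast_sub]
        exact sub_eq_zero.2 h3
      exact (ZMod.intCast_zmod_eq_zero_iff_dvd _ 2).1 h4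
    choose c hc using h2
    have h5 : v - w = b.equivFun.symm c + b.equivFun.symm c := by
      apply b.equivFun.injective
      rw [map_add, LinearEquiv.apply_symm_apply, map_sub]
      funext i
      rw [Pi.sub_apply, Pi.add_apply]
      have h6 := hc i
      rw [Module.Basis.equivFun_apply, Module.Basis.equivFun_apply]
      omega
    rw [Finset.mem_insert, Finset.mem_singleton]
    exact Fin_pair ((Set.Finite.mem_toFinset hfin).1 hv) ((Set.Finite.mem_toFinset hfin).1 hw1) h5
  · exact Nat.mul_le_mul_left 2 (Finset.card_le_univ _)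

end Pool.Agent.ZSS
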