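import Pool.Agent.Lib.MP_8f66f0_al_ZSS.SpecL

/-!
# PROJECT ZERO, part SS: a group which maps a finite set to itself
-/

set_option autoImplicit false

namespace Pool.Agent.ZSS

open Pool.Agent.Lib.SingHom

theorem fix : S_fix := by
  classical
  intro L _ _ s hs H _ θ hst
  have h1 : ∀ h, ∀ x ∈ Submodule.span ℤ s, θ h x ∈ Submodule.span ℤ s := by
    intro h x hx
    induction hx using Submodule.span_induction with
    | mem x hx => exact Submodule.subset_span (hst h x hx)
    | zero =>
      rw [map_zero]
      exact Submodule.zero_mem _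
    | add x y _ _ hx hy =>
      rw [map_add]
      exact Submodule.add_mem _ hx hy
    | smul a x _ hx =>
      rw [map_smul]
      exact Submodule.smul_mem _ _ hx
  refine ⟨?_, ?_⟩
  · rintro h x ⟨n, hn, hx⟩
    refine ⟨n, hn, ?_⟩
    rw [← map_smul]
    exact h1 h _ hx
  · have key : ∀ h h', (∀ v ∈ s, θ h v = θ h' v) → ∀ x ∈ sat s, θ h x = θ h' x := by
      intro h h' hv x hx
      obtain ⟨n, hn, hx⟩ := hx
      have h2 : ∀ y ∈ Submodule.span ℤ s, θ h y = θ h' y := by
        intro y hy
        induction hy using Submodule.span_induction with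
        | mem x hx => exact hv x hx
        | zero => rw [map_zero, map_zero]
        | add x y _ _ hx hy => rw [map_add, map_add, hx, hy]
        | smul a x _ hx => rw [map_smul, map_smul, hx]
      have h3 := h2 _ hx
      rw [map_smul, map_smul, ← sub_eq_zero, ← smul_sub] at h3
      rcases smul_eq_zero.1 h3 with h4 | h4
      · exact absurd h4 hn
      · exact sub_eq_zero.1 h4
    have hfin : Finite s := hs
    let R : H → (s → s) := fun h v => ⟨θ h v, hst h v v.2⟩
    refine (Set.finite_range (fun r : s → s =>
      if hr : ∃ h, R h = r then (fun x : sat s => θ hr.choose (x : L)) else 0)).subset ?_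
    rintro f ⟨h, hf⟩
    refine ⟨R h, ?_⟩
    have hex : ∃ h', R h' = R h := ⟨h, rfl⟩
    simp only [dif_pos hex]
    funext x
    rw [hf x]
    exact key _ _ (fun v hv => congrArg Subtype.val (congrFun hex.choose_spec ⟨v, hv⟩)) x x.2

end Pool.Agent.ZSS
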