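import Pool.Agent.Lib.MP_8f66f0_al_ZSS.Spec

/-!
# PROJECT ZERO, part SS: all tuples of a nonempty set (module Full)
-/

set_option autoImplicit false

namespace Pool.Agent.ZSS

open Pool.Agent.Lib.SingHom

private theorem Full_cone {X : Type} {P : Set X} {x₀ : X} (hx : x₀ ∈ P) (n : ℕ) {z : Ch ℤ X n}
    (hz : z ∈ supp ℤ (Fl P n)) : cone ℤ x₀ n z ∈ supp ℤ (Fl P (n + 1)) := by
  refine supp_map ℤ (cone ℤ x₀ n) (fun v hv => ?_) hz
  rw [cone_single]
  refine single_mem_supp ℤ (fun i => ?_) 1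
  refine Fin.cases ?_ (fun j => ?_) i
  · simpa using hx
  · simpa using hv j

theorem full : S_full := by
  intro X P hP
  obtain ⟨x₀, hx⟩ := hP
  refine ⟨⟨fun _ => x₀, fun _ => hx⟩, fun z hz h0 => ?_, fun n z hz h0 => ?_⟩
  · exact ⟨cone ℤ x₀ 0 z, Full_cone hx 0 hz, by rw [bd_cone_zero, h0, zero_smul, sub_zero]⟩
  · exact ⟨cone ℤ x₀ (n + 1) z, Full_cone hx (n + 1) hz, by rw [bd_cone, h0, map_zero, sub_zero]⟩

end Pool.Agent.ZSS
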