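import Pool.Agent.Lib.MP_8f66f0_al_ZSS.Spec

/-!
# Hty: two chain maps which are carried by the same acyclic carrier are homotopic
-/

set_option autoImplicit false

namespace Pool.Agent.ZSS

open Pool.Agent.Lib.SingHom

private theorem Hty_ext {α M : Type} [AddCommGroup M] [Module ℤ M] {P : α → Prop}
    (F G : (α →₀ ℤ) →ₗ[ℤ] M)
    (h : ∀ v, P v → F (Finsupp.single v 1) = G (Finsupp.single v 1)) {c : α →₀ ℤ}
    (hc : c ∈ supp ℤ P) : F c = G c := by
  have h1 : (F - G) c ∈ (⊥ : Submodule ℤ M) := by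
    refine supp_map ℤ (F - G) ?_ hc
    intro v hv
    rw [Submodule.mem_bot, LinearMap.sub_apply, h v hv, sub_self]
  rw [Submodule.mem_bot, LinearMap.sub_apply, sub_eq_zero] at h1
  exact h1

private theorem Hty_bd_mem {Y : Type} {S : TP Y} (hS : Fc S) (n : ℕ) (w : Fin (n + 2) → Y)
    (hw : S (n + 1) w) : bd ℤ n (Finsupp.single w 1) ∈ supp ℤ (S n) := by
  rw [bd_single, bdv]
  apply Submodule.sum_mem
  intro i _
  apply Submodule.smul_mem
  exact single_mem_supp ℤ (hS n w i hw) 1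

/-- The image of the boundary of a tuple, under a map carried by `T`. -/
private theorem Hty_carr {Y Z : Type} {S : TP Y} {T : ∀ n : ℕ, (Fin (n + 1) → Y) → TP Z}
    (hS : Fc S) (hT : Carr S T) (n m : ℕ) (F : Ch ℤ Y n →ₗ[ℤ] Ch ℤ Z m)
    (hF : ∀ w, S n w → F (Finsupp.single w 1) ∈ supp ℤ (T n w m)) (w : Fin (n + 2) → Y)
    (hw : S (n + 1) w) : F (bd ℤ n (Finsupp.single w 1)) ∈ supp ℤ (T (n + 1) w m) := by
  rw [bd_single, bdv, map_sum]
  apply Submodule.sum_mem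
  intro i _
  rw [map_smul]
  apply Submodule.smul_mem
  have h1 := hF (w ∘ i.succAbove) (hS n w i hw)
  exact supp_mono ℤ (fun u hu => hT.mono n w i hw m u hu) h1

open Classical in
/-- A chain in `T n w` with boundary `y`, if there is one. -/
private noncomputable def Hty_fill {Y Z : Type} (T : ∀ n : ℕ, (Fin (n + 1) → Y) → TP Z)
    (n : ℕ) (w : Fin (n + 1) → Y) (y : Ch ℤ Z n) : Ch ℤ Z (n + 1) :=
  if h : ∃ x, x ∈ supp ℤ (T n w (n + 1)) ∧ bd ℤ n x = y then h.choose else 0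

private theorem Hty_fill_spec {Y Z : Type} (T : ∀ n : ℕ, (Fin (n + 1) → Y) → TP Z)
    (n : ℕ) (w : Fin (n + 1) → Y) (y : Ch ℤ Z n)
    (h : ∃ x, x ∈ supp ℤ (T n w (n + 1)) ∧ bd ℤ n x = y) :
    Hty_fill T n w y ∈ supp ℤ (T n w (n + 1)) ∧ bd ℤ n (Hty_fill T n w y) = y := by
  rw [Hty_fill, dif_pos h]
  exact h.choose_spec

/-- The homotopy. -/
private noncomputable def Hty_h {Y Z : Type} (T : ∀ n : ℕ, (Fin (n + 1) → Y) → TP Z)
    (f g : ∀ n : ℕ, Ch ℤ Y n →ₗ[ℤ] Ch ℤ Z n) : ∀ n : ℕ, Ch ℤ Y n →ₗ[ℤ] Ch ℤ Z (n + 1)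
  | 0 => Finsupp.linearCombination ℤ (fun w : Fin (0 + 1) → Y =>
      Hty_fill T 0 w (f 0 (Finsupp.single w 1) - g 0 (Finsupp.single w 1)))
  | n + 1 => Finsupp.linearCombination ℤ (fun w : Fin (n + 1 + 1) → Y =>
      Hty_fill T (n + 1) w (f (n + 1) (Finsupp.single w 1) - g (n + 1) (Finsupp.single w 1) -
        Hty_h T f g n (bd ℤ n (Finsupp.single w 1))))

private theorem Hty_h_zero {Y Z : Type} (T : ∀ n : ℕ, (Fin (n + 1) → Y) → TP Z)
    (f g : ∀ n : ℕ, Ch ℤ Y n →ₗ[ℤ] Ch ℤ Z n) (w : Fin (0 + 1) → Y) :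
    Hty_h T f g 0 (Finsupp.single w 1) =
      Hty_fill T 0 w (f 0 (Finsupp.single w 1) - g 0 (Finsupp.single w 1)) := by
  rw [Hty_h, Finsupp.linearCombination_single, one_smul]

private theorem Hty_h_succ {Y Z : Type} (T : ∀ n : ℕ, (Fin (n + 1) → Y) → TP Z)
    (f g : ∀ n : ℕ, Ch ℤ Y n →ₗ[ℤ] Ch ℤ Z n) (n : ℕ) (w : Fin (n + 2) → Y) :
    Hty_h T f g (n + 1) (Finsupp.single w 1) =
      Hty_fill T (n + 1) w (f (n + 1) (Finsupp.single w 1) - g (n + 1) (Finsupp.single w 1) -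
        Hty_h T f g n (bd ℤ n (Finsupp.single w 1))) := by
  rw [Hty_h, Finsupp.linearCombination_single, one_smul]

theorem hty : S_hty := by
  intro Y Z S T hS hT f g hf hg he hfb hgb
  obtain ⟨h, hh⟩ : ∃ h, h = Hty_h T f g := ⟨_, rfl⟩
  -- degree zero
  have h0 : ∀ w, S 0 w → h 0 (Finsupp.single w 1) ∈ supp ℤ (T 0 w 1) ∧
      bd ℤ 0 (h 0 (Finsupp.single w 1)) = f 0 (Finsupp.single w 1) - g 0 (Finsupp.single w 1) := by
    intro w hw
    rw [hh, Hty_h_zero]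
    apply Hty_fill_spec
    refine (hT.acy 0 w hw).zero _ (Submodule.sub_mem _ (hf 0 w hw) (hg 0 w hw)) ?_
    rw [map_sub, he _ (single_mem_supp ℤ hw 1), sub_self]
  have h0' : ∀ z ∈ supp ℤ (S 0), bd ℤ 0 (h 0 z) = f 0 z - g 0 z := by
    intro z hz
    exact Hty_ext ((bd ℤ 0) ∘ₗ (h 0)) (f 0 - g 0) (fun w hw => (h0 w hw).2) hz
  -- from a tuple to a chain
  have key : ∀ n, (∀ w, S (n + 1) w →
      bd ℤ (n + 1) (h (n + 1) (Finsupp.single w 1)) = f (n + 1) (Finsupp.single w 1) -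
        g (n + 1) (Finsupp.single w 1) - h n (bd ℤ n (Finsupp.single w 1))) →
      ∀ z ∈ supp ℤ (S (n + 1)), bd ℤ (n + 1) (h (n + 1) z) = f (n + 1) z - g (n + 1) z -
        h n (bd ℤ n z) := by
    intro n hn z hz
    exact Hty_ext ((bd ℤ (n + 1)) ∘ₗ (h (n + 1))) (f (n + 1) - g (n + 1) - (h n) ∘ₗ (bd ℤ n))
      (fun w hw => hn w hw) hz
  have hs : ∀ n, ∀ w, S (n + 1) w → h (n + 1) (Finsupp.single w 1) ∈ supp ℤ (T (n + 1) w (n + 2)) ∧
      bd ℤ (n + 1) (h (n + 1) (Finsupp.single w 1)) = f (n + 1) (Finsupp.single w 1) -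
        g (n + 1) (Finsupp.single w 1) - h n (bd ℤ n (Finsupp.single w 1)) := by
    intro n
    induction n with
    | zero =>
      intro w hw
      have e1 : h 0 (bd ℤ 0 (Finsupp.single w 1)) ∈ supp ℤ (T (0 + 1) w 1) :=
        Hty_carr hS hT 0 1 (h 0) (fun w hw => (h0 w hw).1) w hw
      have e2 := h0' _ (Hty_bd_mem hS 0 w hw)
      have e3 : h (0 + 1) (Finsupp.single w 1) = Hty_fill T (0 + 1) w
          (f (0 + 1) (Finsupp.single w 1) - g (0 + 1) (Finsupp.single w 1) -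
            h 0 (bd ℤ 0 (Finsupp.single w 1))) := by
        rw [hh]
        exact Hty_h_succ T f g 0 w
      rw [e3]
      apply Hty_fill_spec
      refine (hT.acy (0 + 1) w hw).succ 0 _ (Submodule.sub_mem _ (Submodule.sub_mem _
        (hf (0 + 1) w hw) (hg (0 + 1) w hw)) e1) ?_
      have e4 := hfb 0 _ (single_mem_supp ℤ hw 1)
      have e5 := hgb 0 _ (single_mem_supp ℤ hw 1)
      rw [map_sub, map_sub, e2]
      rw [e4, e5, sub_self]
    | succ n ih =>
      intro w hw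
      have e1 : h (n + 1) (bd ℤ (n + 1) (Finsupp.single w 1)) ∈ supp ℤ (T (n + 1 + 1) w (n + 2)) :=
        Hty_carr hS hT (n + 1) (n + 2) (h (n + 1)) (fun w hw => (ih w hw).1) w hw
      have e2 := key n (fun w hw => (ih w hw).2) _ (Hty_bd_mem hS (n + 1) w hw)
      rw [bd_bd, map_zero, sub_zero] at e2
      have e3 : h (n + 1 + 1) (Finsupp.single w 1) = Hty_fill T (n + 1 + 1) w
          (f (n + 1 + 1) (Finsupp.single w 1) - g (n + 1 + 1) (Finsupp.single w 1) -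
            h (n + 1) (bd ℤ (n + 1) (Finsupp.single w 1))) := by
        rw [hh]
        exact Hty_h_succ T f g (n + 1) w
      rw [e3]
      apply Hty_fill_spec
      refine (hT.acy (n + 1 + 1) w hw).succ (n + 1) _ (Submodule.sub_mem _ (Submodule.sub_mem _
        (hf (n + 1 + 1) w hw) (hg (n + 1 + 1) w hw)) e1) ?_
      have e4 := hfb (n + 1) _ (single_mem_supp ℤ hw 1)
      have e5 := hgb (n + 1) _ (single_mem_supp ℤ hw 1)
      rw [map_sub, map_sub, e2]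
      rw [e4, e5, sub_self]
  refine ⟨h, ?_, h0', ?_⟩
  · intro n w hw
    cases n with
    | zero => exact (h0 w hw).1
    | succ n => exact (hs n w hw).1
  · intro n z hz
    rw [key n (fun w hw => (hs n w hw).2) z hz, sub_add_cancel]

end Pool.Agent.ZSS
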