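import Pool.Agent.Lib.MP_8f66f0_al_ZSS.Spec

/-! # PROJECT ZERO, part SS: bounded length of the chains in the nerve -/

set_option autoImplicit false

namespace Pool.Agent.ZSS

open Pool.Agent.Lib.SingHom

theorem len : S_len := by
  intro X V U N hN m u hu
  obtain ⟨-, x, hx⟩ := hu.2 (Fin.last m)
  have hT := hN x
  have hsub : ∀ i, u i ⊆ {v | x ∈ U v} := by
    intro i v hv
    exact hx v (hu.1.monotone (Fin.le_last i) hv)
  have hfin : ∀ i, (u i).Finite := fun i => hT.1.subset (hsub i)
  have key : ∀ i : Fin (m + 1), (i : ℕ) + 1 ≤ (u i).ncard := by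
    intro i
    induction i using Fin.induction with
    | zero =>
      have h1 := (hu.2 0).1
      exact (Set.ncard_pos (hfin 0)).2 h1
    | succ i ih =>
      have h1 : (u i.castSucc).ncard < (u i.succ).ncard :=
        Set.ncard_lt_ncard (hu.1 i.castSucc_lt_succ) (hfin _)
      rw [Fin.val_castSucc] at ih
      rw [Fin.val_succ]
      omega
  have h1 := key (Fin.last m)
  have h2 := Set.ncard_le_ncard (hsub (Fin.last m)) hT.1
  rw [Fin.val_last] at h1
  have h3 := hT.2
  omega

end Pool.Agent.ZSS
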