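import Pool.Agent.Lib.MP_8f66f0_al_ZSS.SpecG

/-!
# PROJECT ZERO, part SS: induction on the rank and assembly
-/

set_option autoImplicit false

namespace Pool.Agent.ZSS

open Pool.Agent.Lib.SingHom

private theorem Main_frm {L G : Type} [AddCommGroup L] [Group G] (θ : G →* (L ≃ₗ[ℤ] L))
    (h : ∀ U : Subgroup G, Finite (U.map θ) → Hier.SS U) (U : Type) [Group U] (i : U →* G)
    (hi : Function.Injective i) (hf : Finite (θ.comp i).range) : Hier.SS U := by
  have h1 : i.range.map θ = (θ.comp i).range := by rw [MonoidHom.range_comp]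
  have h2 : Hier.SS i.range := h _ (by rw [h1]; exact hf)
  exact Hier.ss_iso (MonoidHom.ofInjective hi).symm h2

private theorem Main_ind (h1 : S_sml) (h2 : S_ner) (h3 : S_len) (h4 : S_pA) (h5 : S_pB)
    (h6 : S_fin) (h7 : S_stb) (h8 : S_rank) (h9 : S_quo) (h10 : S_fix) (h11 : S_res)
    (h12 : S_ext) (n : ℕ) : ∀ (L : Type) [AddCommGroup L] [Module.Free ℤ L] [Module.Finite ℤ L],
      Module.finrank ℤ L = n → ∀ (G : Type) [Group G] (θ : G →* (L ≃ₗ[ℤ] L)),
      (∀ (U : Type) [Group U] (i : U →* G), Function.Injective i →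
        Finite (θ.comp i).range → Hier.SS U) → Hier.SS G := by
  induction n using Nat.strong_induction_on with
  | _ n ih =>
    intro L _ _ _ hL G _ θ hG
    by_cases hsub : Subsingleton L
    · have hf : Finite (L ≃ₗ[ℤ] L) := Finite.of_injective (fun e => (e : L → L))
        DFunLike.coe_injective
      exact hG G (MonoidHom.id G) (fun _ _ h => h) inferInstance
    · have : Nontrivial L := not_subsingleton_iff_nontrivial.1 hsub
      obtain ⟨p1, p2, p3⟩ := h4 L
      obtain ⟨p4, p5⟩ := h5 L p2
      have hcov : Cov (Fm L) (Uv (L := L)) := ⟨p1, p2, fun v A hA => hA.1, p3, p4, p5⟩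
      have hacy : Acy (St (Ne (Uv (L := L)))) := h2 _ _ _ (h1 _ _ _ _ hcov)
      obtain ⟨N, hN⟩ := h6 L
      let act : MulAction G (Set L) :=
        { smul := fun g s => θ g '' s
          one_smul := fun s => by
            change θ 1 '' s = s
            rw [map_one]
            exact Set.image_id s
          mul_smul := fun g g' s => by
            change θ (g * g') '' s = θ g '' (θ g' '' s)
            rw [map_mul, ← Set.image_comp]
            rfl }
      refine h11 G (Set L) (St (Ne (Uv (L := L)))) N hacy ?_ ?_ ?_ ?_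
      · rintro m w i ⟨hw1, hw2⟩
        exact ⟨hw1.comp (Fin.strictMono_succAbove i), fun j => hw2 _⟩
      · rintro m u g ⟨hu1, hu2⟩
        refine ⟨fun a b hab => ?_, fun j => h7 L (θ g) _ (hu2 j)⟩
        exact (θ g).injective.image_strictMono (hu1 hab)
      · exact fun m u hu => h3 _ _ _ N hN m u hu
      · intro m u hu H hH
        obtain ⟨⟨v, hv⟩, A, hA⟩ := hu.2 0
        have hfin : (u 0).Finite := (hN A).1.subset hA
        have hst : ∀ h : H, ∀ x ∈ u 0, (θ.comp H.subtype) h x ∈ u 0 := by
          intro h x hx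
          have e : θ h.1 '' u 0 = u 0 := hH h.1 h.2 0
          rw [← e]
          exact ⟨x, hx, rfl⟩
        obtain ⟨q1, q2⟩ := h10 L (u 0) hfin H (θ.comp H.subtype) hst
        obtain ⟨θ', hθ'⟩ := h9 L (sat (u 0)) H (θ.comp H.subtype) q1
        obtain ⟨hfree, hrank⟩ := h8 L (u 0) ⟨v, hv, (hA v hv).2.1⟩
        have := hfree
        refine ih _ (hL ▸ hrank) (L ⧸ sat (u 0)) rfl H θ' fun U _ i hi hf => ?_
        have hE : FH.EAm ((θ.comp H.subtype).comp i).range := by
          refine h12 L (sat (u 0)) U ((θ.comp H.subtype).comp i) (fun x => q1 (i x)) ?_ ?_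
          · refine q2.subset ?_
            rintro f ⟨x, hx⟩
            exact ⟨i x, hx⟩
          · refine (Set.finite_range (fun e : (θ'.comp i).range => fun x : L =>
              e.1 (Submodule.Quotient.mk x))).subset ?_
            rintro f ⟨x, hx⟩
            refine ⟨⟨θ' (i x), x, rfl⟩, funext fun y => ?_⟩
            exact (hθ' (i x) y).trans (hx y).symm
        refine FH.c_of_rel FH.closedV_ss hE ((θ.comp H.subtype).comp i).rangeRestrict
          fun V hV => ?_
        refine hG V ((H.subtype.comp i).comp V.subtype) ?_ ?_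
        · exact (H.subtype_injective.comp hi).comp V.subtype_injective
        · refine Finite.of_surjective (fun e : V.map ((θ.comp H.subtype).comp i).rangeRestrict =>
            (⟨e.1.1, ?_⟩ : (θ.comp ((H.subtype.comp i).comp V.subtype)).range)) ?_
          · obtain ⟨_, x, hx, rfl⟩ := e
            exact ⟨⟨x, hx⟩, rfl⟩
          · rintro ⟨_, x, rfl⟩
            exact ⟨⟨_, x.1, x.2, rfl⟩, rfl⟩

/-- **The theorem for a lattice.** -/
theorem zT (h1 : S_sml) (h2 : S_ner) (h3 : S_len) (h4 : S_pA) (h5 : S_pB) (h6 : S_fin)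
    (h7 : S_stb) (h8 : S_rank) (h9 : S_quo) (h10 : S_fix) (h11 : S_res) (h12 : S_ext) :
    S_T := by
  intro L _ _ _ G _ θ h
  exact Main_ind h1 h2 h3 h4 h5 h6 h7 h8 h9 h10 h11 h12 _ L rfl G θ
    fun U _ i hi hf => Main_frm θ h U i hi hf

/-- **The theorem for matrices.** -/
theorem zSS (h : S_T) : S_SS := by
  intro n G _ θ hU
  let F : GL (Fin n) ℤ →* ((Fin n → ℤ) ≃ₗ[ℤ] (Fin n → ℤ)) :=
    { toFun := fun g => LinearEquiv.ofLinearMap (Matrix.mulVecLin g.1) (Matrix.mulVecLin (g⁻¹).1)
        (by
          rw [← Matrix.mulVecLin_mul, ← Units.val_mul, mul_inv_cancel, Units.val_one,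
            Matrix.mulVecLin_one])
        (by
          rw [← Matrix.mulVecLin_mul, ← Units.val_mul, inv_mul_cancel, Units.val_one,
            Matrix.mulVecLin_one])
      map_one' := by
        refine LinearEquiv.ext fun x => ?_
        exact Matrix.one_mulVec x
      map_mul' := fun g g' => by
        refine LinearEquiv.ext fun x => ?_
        exact (Matrix.mulVec_mulVec x g.1 g'.1).symm }
  have hF : Function.Injective F := by
    intro g g' hgg
    refine Units.ext (Matrix.toLin'.injective ?_)
    refine LinearMap.ext fun x => ?_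
    exact congrArg (fun e : (Fin n → ℤ) ≃ₗ[ℤ] (Fin n → ℤ) => e x) hgg
  refine h (Fin n → ℤ) G (F.comp θ) fun U hf => hU U ?_
  have e : U.map (F.comp θ) = (U.map θ).map F := (Subgroup.map_map U F θ).symm
  rw [e] at hf
  exact Finite.of_equiv _ ((U.map θ).equivMapOfInjective F hF).toEquiv.symm

end Pool.Agent.ZSS
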