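import Pool.Agent.Lib.MP_8f66f0_al_ZSS.Spec

/-!
# PROJECT ZERO, part SS: the nerve theorem
-/

set_option autoImplicit false

namespace Pool.Agent.ZSS

open Pool.Agent.Lib.SingHom

/-- The nonempty sets of indices whose sets have a common point in the tuple `w`. -/
def Ner_K {X V : Type} (U : V → Set X) {n : ℕ} (w : Fin (n + 1) → X) : Set (Set V) :=
  {s | s.Nonempty ∧ ∃ i, ∀ v ∈ s, w i ∈ U v}

theorem Ner_sub {X V : Type} (U : V → Set X) {n : ℕ} (w : Fin (n + 1) → X) :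
    ∀ s ∈ Ner_K U w, s ∈ Ne U := by
  rintro s ⟨h1, i, h2⟩
  exact ⟨h1, w i, h2⟩

theorem Ner_carr {X V : Type} (U : V → Set X) (h3 : S_con) :
    Carr (Sm U) (fun _ w => Mo (Ner_K U w)) where
  mono := by
    rintro n w i _ m u ⟨hu1, hu2⟩
    refine ⟨hu1, fun j => ?_⟩
    obtain ⟨h1, k, h2⟩ := hu2 j
    exact ⟨h1, i.succAbove k, h2⟩
  acy := by
    rintro n w ⟨v₀, hv₀⟩
    refine h3 (Set V) (Ner_K U w) (fun s => insert v₀ s) {v₀} ?_ ?_ ?_ ?_ ?_
    · refine ⟨Set.singleton_nonempty v₀, 0, ?_⟩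
      intro v hv
      rw [Set.mem_singleton_iff] at hv
      rw [hv]
      exact hv₀ 0
    · rintro y ⟨_, i, hy⟩
      refine ⟨Set.insert_nonempty v₀ y, i, ?_⟩
      intro v hv
      rcases Set.mem_insert_iff.1 hv with h | h
      · rw [h]
        exact hv₀ i
      · exact hy v h
    · intro y _
      exact Set.subset_insert v₀ y
    · intro y _
      exact Set.singleton_subset_iff.2 (Set.mem_insert v₀ y)
    · intro y _ y' _ h
      exact Set.insert_subset_insert h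

theorem Ner_Fc_Sm {X V : Type} (U : V → Set X) : Fc (Sm U) := by
  rintro n w i ⟨v, hv⟩
  exact ⟨v, fun j => hv _⟩

theorem Ner_Fc_Mo {Z : Type} [PartialOrder Z] (K : Set Z) : Fc (Mo K) := by
  rintro n w i ⟨h1, h2⟩
  exact ⟨h1.comp (Fin.strictMono_succAbove i).monotone, fun j => h2 _⟩

theorem Ner_eps_mp {Y Y' : Type} (g : Y → Y') (c : Ch ℤ Y 0) :
    eps ℤ (mp ℤ g 0 c) = eps ℤ c := by
  have h : (eps ℤ) ∘ₗ (mp ℤ g 0) = eps ℤ := by
    apply lin_ext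
    intro v
    rw [LinearMap.comp_apply, mp_single, eps_single, eps_single]
  exact LinearMap.congr_fun h c

theorem ner (h1 : S_car) (h2 : S_hty) (h3 : S_con) (h4 : S_nrm) : S_ner := by
  intro X V U hU
  apply h4
  -- the chain map from the small chains
  have hT := Ner_carr U h3
  obtain ⟨ψ, ψ1, ψ2, ψ3⟩ := h1 X (Set V) (Sm U) _ (Ner_Fc_Sm U) hT
  have hψ : ∀ n, ∀ z ∈ supp ℤ (Sm U n), ψ n z ∈ supp ℤ (Mo (Ne U) n) := by
    intro n z hz
    refine supp_map ℤ (ψ n) ?_ hz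
    intro w hw
    refine supp_mono ℤ ?_ (ψ1 n w hw)
    rintro u ⟨hu1, hu2⟩
    exact ⟨hu1, fun i => Ner_sub U w _ (hu2 i)⟩
  -- the choice of the points
  have hx : ∃ x : Set V → X, ∀ s ∈ Ne U, ∀ v ∈ s, x s ∈ U v := by
    classical
    obtain ⟨u₀, _⟩ := hU.ne
    refine ⟨fun s => if h : ∃ x, ∀ v ∈ s, x ∈ U v then h.choose else u₀ 0, ?_⟩
    rintro s ⟨_, hs⟩ v hv
    have e : (if h : ∃ x, ∀ v ∈ s, x ∈ U v then h.choose else u₀ 0) = hs.choose := dif_pos hs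
    show (if h : ∃ x, ∀ v ∈ s, x ∈ U v then h.choose else u₀ 0) ∈ U v
    rw [e]
    exact hs.choose_spec v hv
  obtain ⟨x, hx⟩ := hx
  have hxS : ∀ n (u : Fin (n + 1) → Set V), Mo (Ne U) n u → Sm U n (x ∘ u) := by
    rintro n u ⟨hu1, hu2⟩
    obtain ⟨⟨v, hv⟩, _⟩ := hu2 0
    exact ⟨v, fun i => hx _ (hu2 i) v (hu1 (Fin.zero_le i) hv)⟩
  have hφ : ∀ n, ∀ z ∈ supp ℤ (Mo (Ne U) n), mp ℤ x n z ∈ supp ℤ (Sm U n) := by
    intro n z hz
    refine supp_map ℤ (mp ℤ x n) ?_ hz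
    intro u hu
    rw [mp_single]
    exact single_mem_supp ℤ (hxS n u hu) 1
  -- the homotopy
  have hT' : Carr (Mo (Ne U)) (fun n (u : Fin (n + 1) → Set V) => Mo (Ner_K U (x ∘ u))) := by
    refine ⟨?_, ?_⟩
    · intro n u i hu m u' hu'
      exact hT.mono n (x ∘ u) i (hxS _ u hu) m u' hu'
    · intro n u hu
      exact hT.acy n (x ∘ u) (hxS _ u hu)
  obtain ⟨h, k1, k2, k3⟩ := h2 (Set V) (Set V) (Mo (Ne U)) _ (Ner_Fc_Mo _) hT'
    (fun n => (ψ n) ∘ₗ (mp ℤ x n)) (fun n => LinearMap.id)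
    (by
      intro n u hu
      rw [LinearMap.comp_apply, mp_single]
      exact ψ1 n (x ∘ u) (hxS n u hu))
    (by
      intro n u hu
      rw [LinearMap.id_apply]
      apply single_mem_supp
      refine ⟨hu.1, fun i => ⟨(hu.2 i).1, i, ?_⟩⟩
      intro v hv
      exact hx _ (hu.2 i) v hv)
    (by
      intro z hz
      rw [LinearMap.comp_apply, LinearMap.id_apply, ψ2 _ (hφ 0 z hz), Ner_eps_mp])
    (by
      intro n z hz
      rw [LinearMap.comp_apply, LinearMap.comp_apply, ψ3 n _ (hφ (n + 1) z hz), bd_mp])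
    (by
      intro n z _
      rfl)
  have hh : ∀ n, ∀ z ∈ supp ℤ (Mo (Ne U) n), h n z ∈ supp ℤ (Mo (Ne U) (n + 1)) := by
    intro n z hz
    refine supp_map ℤ (h n) ?_ hz
    intro u hu
    refine supp_mono ℤ ?_ (k1 n u hu)
    rintro u' ⟨hu1, hu2⟩
    exact ⟨hu1, fun i => Ner_sub U _ _ (hu2 i)⟩
  refine ⟨?_, ?_, ?_⟩
  · obtain ⟨u₀, v, hv⟩ := hU.ne
    refine ⟨fun _ => {v}, monotone_const, fun _ => ⟨Set.singleton_nonempty v, u₀ 0, ?_⟩⟩
    intro v' hv'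
    rw [Set.mem_singleton_iff] at hv'
    rw [hv']
    exact hv 0
  · intro z hz hz0
    obtain ⟨y, hy, hyz⟩ := hU.zero _ (hφ 0 z hz) (by rw [Ner_eps_mp, hz0])
    refine ⟨ψ 1 y - h 0 z, Submodule.sub_mem _ (hψ 1 y hy) (hh 0 z hz), ?_⟩
    have e := k2 z hz
    rw [LinearMap.comp_apply, LinearMap.id_apply] at e
    rw [map_sub, ψ3 0 y hy, hyz, e, sub_sub_cancel]
  · intro n z hz hz0
    obtain ⟨y, hy, hyz⟩ := hU.succ n _ (hφ (n + 1) z hz) (by rw [bd_mp, hz0, map_zero])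
    refine ⟨ψ (n + 2) y - h (n + 1) z, Submodule.sub_mem _ (hψ (n + 2) y hy) (hh (n + 1) z hz), ?_⟩
    have e := k3 n z hz
    rw [LinearMap.comp_apply, LinearMap.id_apply, hz0, map_zero, add_zero] at e
    rw [map_sub, ψ3 (n + 1) y hy, hyz, e, sub_sub_cancel]

end Pool.Agent.ZSS
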