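import Pool.Agent.Lib.MP_8f66f0_al_ZSS.Spec

/-!
# Nrm: from weakly to strictly increasing tuples
-/

set_option autoImplicit false

namespace Pool.Agent.ZSS

open Pool.Agent.Lib.SingHom

private theorem Nrm_ext {α M : Type} [AddCommGroup M] [Module ℤ M] {P : α → Prop}
    (F G : (α →₀ ℤ) →ₗ[ℤ] M)
    (h : ∀ v, P v → F (Finsupp.single v 1) = G (Finsupp.single v 1)) {c : α →₀ ℤ}
    (hc : c ∈ supp ℤ P) : F c = G c := by
  have h1 : (F - G) c ∈ (⊥ : Submodule ℤ M) := by
    refine supp_map ℤ (F - G) ?_ hc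
    intro v hv
    rw [Submodule.mem_bot, LinearMap.sub_apply, h v hv, sub_self]
  rw [Submodule.mem_bot, LinearMap.sub_apply, sub_eq_zero] at h1
  exact h1

open Classical in
/-- The projection to the strictly increasing tuples. -/
private noncomputable def Nrm_p (Z : Type) [PartialOrder Z] (n : ℕ) : Ch ℤ Z n →ₗ[ℤ] Ch ℤ Z n :=
  Finsupp.linearCombination ℤ (fun u : Fin (n + 1) → Z =>
    if StrictMono u then (Finsupp.single u 1 : Ch ℤ Z n) else 0)

private theorem Nrm_p_pos {Z : Type} [PartialOrder Z] {n : ℕ} {u : Fin (n + 1) → Z}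
    (hu : StrictMono u) : Nrm_p Z n (Finsupp.single u 1) = Finsupp.single u 1 := by
  rw [Nrm_p, Finsupp.linearCombination_single, one_smul, if_pos hu]

private theorem Nrm_p_neg {Z : Type} [PartialOrder Z] {n : ℕ} {u : Fin (n + 1) → Z}
    (hu : ¬ StrictMono u) : Nrm_p Z n (Finsupp.single u 1) = 0 := by
  rw [Nrm_p, Finsupp.linearCombination_single, one_smul, if_neg hu]

/-- The two faces at a repeated entry are equal. -/
private theorem Nrm_face {Z : Type} {n : ℕ} (u : Fin (n + 2) → Z) (j : Fin (n + 1))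
    (hj : u j.castSucc = u j.succ) : u ∘ j.succ.succAbove = u ∘ j.castSucc.succAbove := by
  funext k
  rw [Function.comp_apply, Function.comp_apply]
  rcases lt_trichotomy k j with h | h | h
  · rw [Fin.succAbove_of_castSucc_lt _ _ (Fin.castSucc_lt_castSucc_iff.mpr h),
      Fin.succAbove_of_castSucc_lt _ _ (lt_trans (Fin.castSucc_lt_castSucc_iff.mpr h)
        (Fin.castSucc_lt_succ))]
  · rw [h, Fin.succAbove_of_le_castSucc _ _ le_rfl,
      Fin.succAbove_of_castSucc_lt _ _ (Fin.castSucc_lt_succ)]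
    exact hj
  · rw [Fin.succAbove_of_le_castSucc _ _ (Fin.castSucc_le_castSucc_iff.mpr h.le),
      Fin.succAbove_of_le_castSucc _ _ (by
        rw [Fin.le_def, Fin.val_succ, Fin.val_castSucc]
        exact h)]

private theorem Nrm_bd {Z : Type} [PartialOrder Z] (n : ℕ) (u : Fin (n + 2) → Z)
    (hu : Monotone u) : bd ℤ n (Nrm_p Z (n + 1) (Finsupp.single u 1)) =
      Nrm_p Z n (bd ℤ n (Finsupp.single u 1)) := by
  by_cases hs : StrictMono u
  · rw [Nrm_p_pos hs, bd_single, bdv, map_sum]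
    apply Finset.sum_congr rfl
    intro i _
    rw [map_smul, Nrm_p_pos (hs.comp (Fin.strictMono_succAbove i))]
  · rw [Nrm_p_neg hs, map_zero, bd_single, bdv, map_sum]
    rw [Fin.strictMono_iff_lt_succ] at hs
    push Not at hs
    obtain ⟨j, hj⟩ := hs
    have hj2 : u j.castSucc = u j.succ := by
      rcases (hu (Fin.castSucc_lt_succ (i := j)).le).lt_or_eq with h | h
      · exact absurd h hj
      · exact h
    have hne : j.castSucc ≠ j.succ := (Fin.castSucc_lt_succ (i := j)).ne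
    rw [Finset.sum_eq_add j.castSucc j.succ hne]
    · rw [map_smul, map_smul, Nrm_face u j hj2, Fin.val_castSucc, Fin.val_succ, pow_succ,
        mul_neg, mul_one, neg_smul, add_neg_cancel]
    · rintro i _ ⟨h1, h2⟩
      obtain ⟨a, ha⟩ := Fin.exists_succAbove_eq h1.symm
      obtain ⟨b, hb⟩ := Fin.exists_succAbove_eq h2.symm
      have hn : ¬ StrictMono (u ∘ i.succAbove) := by
        intro h3
        have h4 : (u ∘ i.succAbove) a = (u ∘ i.succAbove) b := by
          rw [Function.comp_apply, Function.comp_apply, ha, hb, hj2]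
        have h5 := h3.injective h4
        rw [h5, hb] at ha
        exact hne ha.symm
      rw [map_smul, Nrm_p_neg hn, smul_zero]
    · intro h
      exact absurd (Finset.mem_univ _) h
    · intro h
      exact absurd (Finset.mem_univ _) h

theorem nrm : S_nrm := by
  intro Z _ K hK
  have hSM : ∀ (n : ℕ) (u : Fin (n + 1) → Z), St K n u → Mo K n u := fun n u hu =>
    ⟨hu.1.monotone, hu.2⟩
  -- the projection is the identity on the strict chains
  have hp : ∀ (n : ℕ), ∀ z ∈ supp ℤ (St K n), Nrm_p Z n z = z := by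
    intro n z hz
    exact Nrm_ext (Nrm_p Z n) LinearMap.id (fun u hu => Nrm_p_pos hu.1) hz
  -- it maps to strict chains
  have hm : ∀ (n : ℕ), ∀ z ∈ supp ℤ (Mo K n), Nrm_p Z n z ∈ supp ℤ (St K n) := by
    intro n z hz
    refine supp_map ℤ (Nrm_p Z n) ?_ hz
    intro u hu
    by_cases hs : StrictMono u
    · rw [Nrm_p_pos hs]
      exact single_mem_supp ℤ (P := St K n) ⟨hs, hu.2⟩ 1
    · rw [Nrm_p_neg hs]
      exact Submodule.zero_mem _
  -- it is a chain map
  have hb : ∀ (n : ℕ), ∀ z ∈ supp ℤ (Mo K (n + 1)), bd ℤ n (Nrm_p Z (n + 1) z) =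
      Nrm_p Z n (bd ℤ n z) := by
    intro n z hz
    exact Nrm_ext ((bd ℤ n) ∘ₗ (Nrm_p Z (n + 1))) ((Nrm_p Z n) ∘ₗ (bd ℤ n))
      (fun u hu => Nrm_bd n u hu.1) hz
  refine ⟨?_, ?_, ?_⟩
  · obtain ⟨u, hu⟩ := hK.ne
    refine ⟨u, ?_, hu.2⟩
    intro a b hab
    exact absurd (Fin.lt_def.mp hab) (by omega)
  · intro z hz hz0
    obtain ⟨w, hw, hwz⟩ := hK.zero z (supp_mono ℤ (hSM 0) hz) hz0
    refine ⟨Nrm_p Z 1 w, hm 1 w hw, ?_⟩
    rw [hb 0 w hw, hwz, hp 0 z hz]
  · intro n z hz hz0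
    obtain ⟨w, hw, hwz⟩ := hK.succ n z (supp_mono ℤ (hSM (n + 1)) hz) hz0
    refine ⟨Nrm_p Z (n + 2) w, hm (n + 2) w hw, ?_⟩
    rw [hb (n + 1) w hw, hwz, hp (n + 1) z hz]

end Pool.Agent.ZSS
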