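import Pool.Agent.Lib.MP_8f66f0_al_ZSS.SpecL

/-! # PROJECT ZERO, part SS: the sets of forms cover and are open on simplices -/

set_option autoImplicit false

namespace Pool.Agent.ZSS

open Pool.Agent.Lib.SingHom

private theorem PB_cov {L : Type} [AddCommGroup L] [Nontrivial L] {A : L → ℝ} (hA : A ∈ Fm L) :
    ∃ v, A ∈ Uv v := by
  obtain ⟨x, hx⟩ := exists_ne (0 : L)
  have hfin : ({y | A y ≤ A x} ∩ {y | y ≠ 0}).Finite := (hA.2.2 (A x)).subset Set.inter_subset_left
  obtain ⟨v, hv, hmin⟩ := Set.exists_min_image _ A hfin ⟨x, le_refl (A x), hx⟩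
  refine ⟨v, hA, hv.2, ?_⟩
  intro w hw
  have hpos := hA.2.1 w hw
  rcases le_or_gt (A w) (A x) with h | h
  · have := hmin w ⟨h, hw⟩
    linarith
  · have h1 : A v ≤ A x := hv.1
    linarith

theorem pB : S_pB := by
  intro L _ _ hcvx
  refine ⟨fun A hA => PB_cov hA, ?_⟩
  intro m a ha v
  by_cases hv : v = 0
  · have : {t : Sx m | ∑ i, t i • a i ∈ Uv v} = ∅ := by
      ext t
      constructor
      · intro ht
        exact (ht.2.1 hv).elim
      · intro ht
        exact ht.elim
    rw [this]
    exact isOpen_empty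
  have hFm : ∀ t : Sx m, ∑ i, t i • a i ∈ Fm L := fun t =>
    hcvx.sum_mem (fun i _ => t.2.1 i) t.2.2 fun i _ => ha i
  have hap : ∀ (t : Sx m) (w : L), (∑ i, t i • a i) w = ∑ i, t i * a i w := by
    intro t w
    rw [Finset.sum_apply]
    rfl
  have hW : ((⋃ i, {x | a i x ≤ ∑ j, a j v}) ∩ {x | x ≠ 0}).Finite :=
    (Set.finite_iUnion fun i => (ha i).2.2 _).subset Set.inter_subset_left
  have heq : {t : Sx m | ∑ i, t i • a i ∈ Uv v} =
      ⋂ w ∈ (⋃ i, {x | a i x ≤ ∑ j, a j v}) ∩ {x | x ≠ 0},
        {t : Sx m | ∑ i, t i * a i v < 2 * ∑ i, t i * a i w} := by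
    ext t
    rw [Set.mem_iInter₂]
    constructor
    · intro ht w hw
      have h1 := ht.2.2 w hw.2
      rw [hap, hap] at h1
      exact h1
    · intro ht
      refine ⟨hFm t, hv, ?_⟩
      intro w hw
      rw [hap, hap]
      by_cases hwW : w ∈ ⋃ i, {x | a i x ≤ ∑ j, a j v}
      · exact ht w ⟨hwW, hw⟩
      · have h1 : ∀ i, ∑ j, a j v < a i w := by
          intro i
          by_contra h
          exact hwW (Set.mem_iUnion.2 ⟨i, not_lt.1 h⟩)
        have h2 : ∑ i, t i * a i v ≤ ∑ j, a j v := by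
          refine Finset.sum_le_sum fun i _ => ?_
          have h3 : t i ≤ 1 := by
            have h4 : t i ≤ ∑ j, t j :=
              Finset.single_le_sum (fun j _ => t.2.1 j) (Finset.mem_univ i)
            exact h4.trans t.2.2.le
          exact mul_le_of_le_one_left ((ha i).2.1 v hv).le h3
        have h5 : ∑ j, a j v ≤ ∑ i, t i * a i w := by
          have h6 : ∑ j, a j v = ∑ i, t i * ∑ j, a j v := by
            rw [← Finset.sum_mul]
            have h7 : ∑ i, t i = 1 := t.2.2
            rw [h7, one_mul]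
          rw [h6]
          exact Finset.sum_le_sum fun i _ => mul_le_mul_of_nonneg_left (h1 i).le (t.2.1 i)
        have h8 : 0 < ∑ j, a j v :=
          Finset.sum_pos (fun j _ => (ha j).2.1 v hv) ⟨0, Finset.mem_univ 0⟩
        linarith
  rw [heq]
  refine hW.isOpen_biInter fun w _ => ?_
  have hc : ∀ i, Continuous fun t : Sx m => t i := fun i =>
    (continuous_apply i).comp continuous_subtype_val
  refine isOpen_lt ?_ ?_
  · exact continuous_finsetSum _ fun i _ => (hc i).mul continuous_const
  · exact continuous_const.mul (continuous_finsetSum _ fun i _ => (hc i).mul continuous_const)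

end Pool.Agent.ZSS
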