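import Pool.Agent.Lib.MP_8f66f0_al_ZSS.SpecL

/-!
# PROJECT ZERO, part SS: the action on the quotient (module Quo)
-/

set_option autoImplicit false

namespace Pool.Agent.ZSS

open Pool.Agent.Lib.SingHom

private theorem Quo_map {L : Type} [AddCommGroup L] (W : Submodule ℤ L) {H : Type} [Group H]
    (θ : H →* (L ≃ₗ[ℤ] L)) (hW : ∀ h, ∀ x ∈ W, θ h x ∈ W) (h : H) :
    W.map ((θ h : L ≃ₗ[ℤ] L) : L →ₗ[ℤ] L) = W := by
  apply le_antisymm
  · rintro _ ⟨x, hx, rfl⟩
    exact hW h x hx
  · intro x hx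
    refine ⟨θ h⁻¹ x, hW h⁻¹ x hx, ?_⟩
    change θ h (θ h⁻¹ x) = x
    rw [← LinearEquiv.mul_apply, ← map_mul, mul_inv_cancel, map_one]
    rfl

theorem quo : S_quo := by
  intro L _ W H _ θ hW
  refine ⟨{ toFun := fun h => Submodule.Quotient.equiv W W (θ h) (Quo_map W θ hW h)
            map_one' := ?_
            map_mul' := fun g h => ?_ }, fun h x => rfl⟩
  · ext x
    refine Submodule.Quotient.induction_on W x fun y => ?_
    change Submodule.Quotient.mk (θ 1 y) = Submodule.Quotient.mk y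
    rw [map_one]
    rfl
  · ext x
    refine Submodule.Quotient.induction_on W x fun y => ?_
    change Submodule.Quotient.mk (θ (g * h) y) = Submodule.Quotient.mk (θ g (θ h y))
    rw [map_mul]
    rfl

end Pool.Agent.ZSS
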