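import Pool.Agent.Lib.MP_8f66f0_al_ZSS.SpecL

/-!
# PROJECT ZERO, part SS: the quotient by a pure sublattice
-/

set_option autoImplicit false

namespace Pool.Agent.ZSS

open Pool.Agent.Lib.SingHom

theorem rank : S_rank := by
  intro L _ _ _ s hs
  obtain ⟨v, hv, hv0⟩ := hs
  have htf : Module.IsTorsionFree ℤ (L ⧸ sat s) := by
    refine Module.IsTorsionFree.of_smul_eq_zero fun n x hx => ?_
    by_cases hn : n = 0
    · exact Or.inl hn
    · right
      induction x using Submodule.Quotient.induction_on with
      | _ x =>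
        rw [← Submodule.Quotient.mk_smul, Submodule.Quotient.mk_eq_zero] at hx
        obtain ⟨k, hk, h⟩ := hx
        rw [Submodule.Quotient.mk_eq_zero]
        refine ⟨k * n, mul_ne_zero hk hn, ?_⟩
        rw [mul_smul]
        exact h
  refine ⟨Module.free_of_finite_type_torsion_free', ?_⟩
  have h1 := Submodule.finrank_quotient_add_finrank (sat s)
  have hv1 : v ∈ sat s := ⟨1, one_ne_zero, by
    rw [one_smul]
    exact Submodule.subset_span hv⟩
  have hnt : Nontrivial (sat s) := ⟨⟨⟨v, hv1⟩, 0, fun h => hv0 (congrArg Subtype.val h)⟩⟩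
  have h2 : 0 < Module.finrank ℤ (sat s) := Module.finrank_pos
  omega

end Pool.Agent.ZSS
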