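import Pool.Agent.Lib.MP_8f66f0_al_ZSS.SpecG

/-! PROJECT ZERO, part SS, module Res: the resolution by tuples. -/

set_option autoImplicit false

namespace Pool.Agent.ZSS

open Pool.Agent.Lib.SingHom Pool.Agent.Hier

section

variable {Γ Z : Type} [Group Γ] [MulAction Γ Z]

/-- The action of `g` on chains. -/
noncomputable abbrev Res_rho (n : ℕ) (g : Γ) : Ch ℤ Z n →ₗ[ℤ] Ch ℤ Z n :=
  mp ℤ (fun z : Z => g • z) n

theorem Res_rho_one (n : ℕ) (z : Ch ℤ Z n) : Res_rho n (1 : Γ) z = z := by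
  have h : Res_rho n (1 : Γ) = (LinearMap.id : Ch ℤ Z n →ₗ[ℤ] Ch ℤ Z n) := by
    apply lin_ext
    intro v
    rw [Res_rho, mp_single, LinearMap.id_apply]
    congr 1
    funext i
    exact one_smul Γ (v i)
  rw [h, LinearMap.id_apply]

theorem Res_rho_mul (n : ℕ) (g g' : Γ) (z : Ch ℤ Z n) :
    Res_rho n (g * g') z = Res_rho n g (Res_rho n g' z) := by
  have h : Res_rho n (g * g') = (Res_rho n g) ∘ₗ (Res_rho n g' : Ch ℤ Z n →ₗ[ℤ] Ch ℤ Z n) := by
    apply lin_ext
    intro v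
    rw [LinearMap.comp_apply, Res_rho, Res_rho, Res_rho, mp_single, mp_single, mp_single]
    congr 1
    funext i
    exact mul_smul g g' (v i)
  rw [h, LinearMap.comp_apply]

/-- The action on a stable submodule of chains. -/
@[reducible] noncomputable def Res_act (n : ℕ) (P : Submodule ℤ (Ch ℤ Z n))
    (h : ∀ (g : Γ) z, z ∈ P → Res_rho n g z ∈ P) : DistribMulAction Γ P where
  smul g v := ⟨Res_rho n g v.1, h g v.1 v.2⟩
  one_smul v := Subtype.ext (Res_rho_one n v.1)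
  mul_smul g g' v := Subtype.ext (Res_rho_mul n g g' v.1)
  smul_zero g := Subtype.ext (map_zero (Res_rho n g))
  smul_add g v w := Subtype.ext (map_add (Res_rho n g) v.1 w.1)

/-- The boundaries of the chains of `B`. -/
noncomputable def Res_Z (B : TP Z) (n : ℕ) : Submodule ℤ (Ch ℤ Z n) :=
  (supp ℤ (B (n + 1))).map (bd ℤ n)

theorem Res_F_stab {B : TP Z} (hB : ∀ n u (g : Γ), B n u → B n (fun j => g • u j)) (n : ℕ)
    (g : Γ) (z : Ch ℤ Z n) (hz : z ∈ supp ℤ (B n)) : Res_rho n g z ∈ supp ℤ (B n) := by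
  refine supp_map ℤ (Res_rho n g) (fun v hv => ?_) hz
  rw [Res_rho, mp_single]
  exact single_mem_supp ℤ (hB n v g hv) 1

theorem Res_Z_stab {B : TP Z} (hB : ∀ n u (g : Γ), B n u → B n (fun j => g • u j)) (n : ℕ)
    (g : Γ) (z : Ch ℤ Z n) (hz : z ∈ Res_Z B n) : Res_rho n g z ∈ Res_Z B n := by
  obtain ⟨w, hw, rfl⟩ := hz
  refine ⟨Res_rho (n + 1) g w, Res_F_stab hB (n + 1) g w hw, ?_⟩
  exact bd_mp ℤ _ n w

theorem Res_Z_le {B : TP Z} (hF : Fc B) (n : ℕ) : Res_Z B n ≤ supp ℤ (B n) := by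
  rintro z ⟨w, hw, rfl⟩
  refine supp_map ℤ (bd ℤ n) (fun v hv => ?_) hw
  rw [bd_single, bdv]
  refine Submodule.sum_mem _ fun i _ => Submodule.smul_mem _ _ ?_
  exact single_mem_supp ℤ (hF n v i hv) 1

/-- The action on the tuples. -/
@[reducible] def Res_actX {B : TP Z} (hB : ∀ n u (g : Γ), B n u → B n (fun j => g • u j)) (n : ℕ) :
    MulAction Γ {u : Fin (n + 1) → Z | B n u} where
  smul g x := ⟨fun j => g • x.1 j, hB n x.1 g x.2⟩
  one_smul x := Subtype.ext (funext fun j => one_smul Γ (x.1 j))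
  mul_smul g h x := Subtype.ext (funext fun j => mul_smul g h (x.1 j))

/-- The chains of `B` are a permutation module. -/
theorem Res_perm {B : TP Z} (hB : ∀ n u (g : Γ), B n u → B n (fun j => g • u j)) (n : ℕ)
    (hs : ∀ u, B n u → ∀ H : Subgroup Γ, (∀ g ∈ H, ∀ j, g • u j = u j) → SS H) :
    @IsPermP Γ (supp ℤ (B n) : Submodule ℤ (Ch ℤ Z n)) _ _ (Res_act n _ (Res_F_stab hB n))
      fun C => SS C := by
  classical
  letI := Res_act n _ (Res_F_stab hB n)
  letI := Res_actX hB n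
  let b : Module.Basis {u : Fin (n + 1) → Z | B n u} ℤ (supp ℤ (B n) : Submodule ℤ (Ch ℤ Z n)) :=
    Module.Basis.ofRepr (Finsupp.supportedEquivFinsupp {u : Fin (n + 1) → Z | B n u})
  have hb : ∀ x, (b x).1 = Finsupp.single x.1 (1 : ℤ) := by
    intro x
    change ((Finsupp.supportedEquivFinsupp {u : Fin (n + 1) → Z | B n u}).symm
      (Finsupp.single x (1 : ℤ)) : (Fin (n + 1) → Z) →₀ ℤ) = _
    exact Finsupp.supportedEquivFinsupp_symm_single _ x 1
  refine ⟨{u : Fin (n + 1) → Z | B n u}, inferInstance, b, fun g x => ?_, fun x => ?_⟩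
  · refine Subtype.ext ?_
    change (b (g • x)).1 = Res_rho n g (b x).1
    rw [hb, hb, Res_rho, mp_single]
    rfl
  · refine hs x.1 x.2 _ fun g hg j => ?_
    have h := congrArg (fun y : {u : Fin (n + 1) → Z | B n u} => y.1 j)
      (MulAction.mem_stabilizer_iff.mp hg)
    exact h

/-- The resolution of the boundaries. -/
theorem Res_exp {B : TP Z} {N : ℕ} (hA : Acy B) (hF : Fc B)
    (hB : ∀ n u (g : Γ), B n u → B n (fun j => g • u j)) (hN : ∀ n u, B n u → n < N)
    (hs : ∀ n u, B n u → ∀ H : Subgroup Γ, (∀ g ∈ H, ∀ j, g • u j = u j) → SS H) :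
    ∀ k n, n + k + 1 = N →
      @ExP Γ _ (fun C => SS C) k (Res_Z B n) _ (Res_act n _ (Res_Z_stab hB n)) := by
  intro k
  induction k with
  | zero =>
    intro n hn
    letI := Res_act n _ (Res_Z_stab hB n)
    have hz : ∀ v : Res_Z B n, v = 0 := by
      rintro ⟨v, w, hw, rfl⟩
      have hw0 : w = 0 := by
        have h := supp_map ℤ (LinearMap.id : Ch ℤ Z (n + 1) →ₗ[ℤ] Ch ℤ Z (n + 1)) (N := ⊥)
          (fun v hv => absurd (hN _ v hv) (by omega)) hw
        exact (Submodule.mem_bot ℤ).mp h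
      refine Subtype.ext ?_
      change bd ℤ n w = 0
      rw [hw0, map_zero]
    haveI : Subsingleton (Res_Z B n) := ⟨fun v w => by rw [hz v, hz w]⟩
    exact ⟨PEmpty, { smul := fun _ x => x, one_smul := fun x => x.elim, mul_smul := fun _ _ x => x.elim },
      Module.Basis.empty _, fun _ x => x.elim, fun x => x.elim⟩
  | succ k ih =>
    intro n hn
    letI := Res_act n _ (Res_Z_stab hB n)
    letI a1 := Res_act (n + 1) _ (Res_F_stab hB (n + 1))
    letI a2 := Res_act (n + 1) _ (Res_Z_stab hB (n + 1))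
    refine ⟨(supp ℤ (B (n + 1)) : Submodule ℤ (Ch ℤ Z (n + 1))), Res_Z B (n + 1), inferInstance, a1,
      inferInstance, a2,
      { toFun := fun v => ⟨v.1, Res_Z_le hF (n + 1) v.2⟩
        map_smul' := fun _ _ => rfl
        map_zero' := rfl
        map_add' := fun _ _ => rfl },
      { toFun := fun v => ⟨bd ℤ n v.1, v.1, v.2, rfl⟩
        map_smul' := fun g v => Subtype.ext (bd_mp ℤ _ n v.1)
        map_zero' := Subtype.ext (map_zero (bd ℤ n))
        map_add' := fun v w => Subtype.ext (map_add (bd ℤ n) v.1 w.1) }, ?_, ?_, ?_, ?_, ?_⟩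
    · intro v w h
      exact Subtype.ext (congrArg (fun u : (supp ℤ (B (n + 1)) : Submodule ℤ (Ch ℤ Z (n + 1))) => u.1) h)
    · intro v
      constructor
      · intro h
        have h1 : bd ℤ n v.1 = 0 := congrArg (fun u : Res_Z B n => u.1) h
        obtain ⟨w, hw, hw2⟩ := hA.succ n v.1 v.2 h1
        exact ⟨⟨v.1, w, hw, hw2⟩, rfl⟩
      · rintro ⟨⟨_, w, hw, rfl⟩, rfl⟩
        exact Subtype.ext (bd_bd ℤ w)
    · rintro ⟨_, w, hw, rfl⟩
      exact ⟨⟨w, hw⟩, rfl⟩
    · exact Res_perm hB (n + 1) (hs (n + 1))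
    · exact ih (n + 1) (by omega)

end

theorem res : S_res := by
  intro Γ Z _ _ B N hA hF hB hN hs
  obtain ⟨u0, hu0⟩ := hA.ne
  have hN0 : N ≠ 0 := by
    have := hN 0 u0 hu0
    omega
  obtain ⟨k, rfl⟩ := Nat.exists_eq_succ_of_ne_zero hN0
  refine Hier.ss_exp (fun C => SS C) (fun C h => h) (k + 1) ?_
  letI a1 := Res_act 0 _ (Res_F_stab hB 0)
  letI a2 := Res_act 0 _ (Res_Z_stab hB 0)
  refine ⟨(supp ℤ (B 0) : Submodule ℤ (Ch ℤ Z 0)), Res_Z B 0, inferInstance, a1, inferInstance, a2,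
    { toFun := fun v => ⟨v.1, Res_Z_le hF 0 v.2⟩
      map_smul' := fun _ _ => rfl
      map_zero' := rfl
      map_add' := fun _ _ => rfl },
    { toFun := fun v => eps ℤ v.1
      map_smul' := fun g v => by
        change eps ℤ (Res_rho 0 g v.1) = eps ℤ v.1
        have h : (eps ℤ) ∘ₗ (Res_rho 0 g) = eps ℤ (Y := Z) := by
          apply lin_ext
          intro v
          rw [LinearMap.comp_apply, Res_rho, mp_single, eps_single, eps_single]
        exact LinearMap.congr_fun h v.1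
      map_zero' := map_zero (eps ℤ)
      map_add' := fun v w => map_add (eps ℤ) v.1 w.1 }, ?_, ?_, ?_, ?_, ?_⟩
  · intro v w h
    exact Subtype.ext (congrArg (fun u : (supp ℤ (B 0) : Submodule ℤ (Ch ℤ Z 0)) => u.1) h)
  · intro v
    constructor
    · intro h
      have h1 : eps ℤ v.1 = 0 := h
      obtain ⟨w, hw, hw2⟩ := hA.zero v.1 v.2 h1
      exact ⟨⟨v.1, w, hw, hw2⟩, rfl⟩
    · rintro ⟨⟨_, w, hw, rfl⟩, rfl⟩
      exact eps_bd ℤ w
  · intro (m : ℤ)
    refine ⟨⟨Finsupp.single u0 m, single_mem_supp ℤ hu0 m⟩, ?_⟩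
    exact eps_single ℤ u0 m
  · exact Res_perm hB 0 (hs 0)
  · exact Res_exp hA hF hB hN hs k 0 (by omega)

end Pool.Agent.ZSS
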