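import Pool.Agent.Lib.MP_8f66f0_al_ZSS.Spec

/-!
# `S_sml`: the small chains of a convex cover are exact
-/

set_option autoImplicit false

namespace Pool.Agent.ZSS

open Pool.Agent.Lib.SingHom

private theorem Sml_Fl {E V : Type} [AddCommGroup E] [Module ℝ E] {P : Set E} {U : V → Set E}
    (hU : Cov P U) {m : ℕ} {w : Fin (m + 1) → E} (h : Sm U m w) : Fl P m w := by
  obtain ⟨v, hv⟩ := h
  exact fun i => hU.sub v (hv i)

/-- subdivision and its homotopy preserve the small chains -/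
private theorem Sml_pres (h2 : S_sub2) {E V : Type} [AddCommGroup E] [Module ℝ E] {P : Set E}
    {U : V → Set E} (hU : Cov P U) (m : ℕ) (z : Ch ℤ E m) (hz : z ∈ supp ℤ (Sm U m)) :
    sd ℤ (bar (E := E)) m z ∈ supp ℤ (Sm U m) ∧
      ht ℤ (bar (E := E)) m z ∈ supp ℤ (Sm U (m + 1)) := by
  constructor
  · refine supp_map ℤ (sd ℤ (bar (E := E)) m) ?_ hz
    rintro w ⟨v, hv⟩
    have h := (h2 E (U v) (hU.ucvx v) m (Finsupp.single w 1) (single_mem_supp ℤ hv 1)).1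
    exact supp_mono ℤ (fun u hu => ⟨v, hu⟩) h
  · refine supp_map ℤ (ht ℤ (bar (E := E)) m) ?_ hz
    rintro w ⟨v, hv⟩
    have h := (h2 E (U v) (hU.ucvx v) m (Finsupp.single w 1) (single_mem_supp ℤ hv 1)).2
    exact supp_mono ℤ (fun u hu => ⟨v, hu⟩) h

private theorem Sml_pow_pres (h2 : S_sub2) {E V : Type} [AddCommGroup E] [Module ℝ E] {P : Set E}
    {U : V → Set E} (hU : Cov P U) (m k : ℕ) (z : Ch ℤ E m) (hz : z ∈ supp ℤ (Sm U m)) :
    ((sd ℤ (bar (E := E)) m) ^ k) z ∈ supp ℤ (Sm U m) := by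
  induction k with
  | zero => exact hz
  | succ k ih =>
    rw [pow_succ']
    exact (Sml_pres h2 hU m _ ih).1

/-- iterated subdivision makes the chains of `P` small -/
private theorem Sml_ev (h1 : S_sub1) {E V : Type} [AddCommGroup E] [Module ℝ E] {P : Set E}
    {U : V → Set E} (hU : Cov P U) (m : ℕ) (c : Ch ℤ E m) (hc : c ∈ supp ℤ (Fl P m)) :
    ∃ k₀ : ℕ, ∀ k ≥ k₀, ((sd ℤ (bar (E := E)) m) ^ k) c ∈ supp ℤ (Sm U m) := by
  rw [supp, Finsupp.supported_eq_span_single] at hc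
  refine Submodule.span_induction
    (p := fun c _ => ∃ k₀ : ℕ, ∀ k ≥ k₀, ((sd ℤ (bar (E := E)) m) ^ k) c ∈ supp ℤ (Sm U m))
    ?_ ?_ ?_ ?_ hc
  · rintro _ ⟨w, hw, rfl⟩
    exact h1 E V P U hU m w hw
  · refine ⟨0, fun k _ => ?_⟩
    rw [map_zero]
    exact Submodule.zero_mem _
  · rintro x y _ _ ⟨a, ha⟩ ⟨b, hb⟩
    refine ⟨max a b, fun k hk => ?_⟩
    rw [map_add]
    exact Submodule.add_mem _ (ha k ((le_max_left a b).trans hk))
      (hb k ((le_max_right a b).trans hk))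
  · rintro r x _ ⟨a, ha⟩
    refine ⟨a, fun k hk => ?_⟩
    rw [map_smul]
    exact Submodule.smul_mem _ r (ha k hk)

private theorem Sml_bd_pow {E : Type} [AddCommGroup E] [Module ℝ E] (n k : ℕ)
    (c : Ch ℤ E (n + 1)) : bd ℤ n (((sd ℤ (bar (E := E)) (n + 1)) ^ k) c) =
      ((sd ℤ (bar (E := E)) n) ^ k) (bd ℤ n c) := by
  induction k with
  | zero => rfl
  | succ k ih =>
    have e1 : ((sd ℤ (bar (E := E)) (n + 1)) ^ (k + 1)) c =
        (sd ℤ (bar (E := E)) (n + 1)) (((sd ℤ (bar (E := E)) (n + 1)) ^ k) c) := by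
      rw [pow_succ']
      rfl
    have e2 : ((sd ℤ (bar (E := E)) n) ^ (k + 1)) (bd ℤ n c) =
        (sd ℤ (bar (E := E)) n) (((sd ℤ (bar (E := E)) n) ^ k) (bd ℤ n c)) := by
      rw [pow_succ']
      rfl
    rw [e1, e2, bd_sd, ih]

private theorem Sml_pow_zero {E : Type} [AddCommGroup E] [Module ℝ E] (k : ℕ) (c : Ch ℤ E 0) :
    ((sd ℤ (bar (E := E)) 0) ^ k) c = c := by
  induction k with
  | zero => rfl
  | succ k ih =>
    have e1 : ((sd ℤ (bar (E := E)) 0) ^ (k + 1)) c =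
        (sd ℤ (bar (E := E)) 0) (((sd ℤ (bar (E := E)) 0) ^ k) c) := by
      rw [pow_succ']
      rfl
    rw [e1, ih, sd_zero]

/-- a small cycle is homologous to its subdivisions -/
private theorem Sml_hty (h2 : S_sub2) {E V : Type} [AddCommGroup E] [Module ℝ E] {P : Set E}
    {U : V → Set E} (hU : Cov P U) (n : ℕ) (z : Ch ℤ E (n + 1))
    (hz : z ∈ supp ℤ (Sm U (n + 1))) (hb : bd ℤ n z = 0) (k : ℕ) :
    ∃ D ∈ supp ℤ (Sm U (n + 2)),
      bd ℤ (n + 1) D = z - ((sd ℤ (bar (E := E)) (n + 1)) ^ k) z := by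
  induction k with
  | zero =>
    refine ⟨0, Submodule.zero_mem _, ?_⟩
    rw [map_zero, pow_zero]
    exact (sub_self z).symm
  | succ k ih =>
    obtain ⟨D, hD, hD'⟩ := ih
    obtain ⟨y, hy⟩ : ∃ y, y = ((sd ℤ (bar (E := E)) (n + 1)) ^ k) z := ⟨_, rfl⟩
    have hy1 : y ∈ supp ℤ (Sm U (n + 1)) := hy ▸ Sml_pow_pres h2 hU (n + 1) k z hz
    have hy2 : bd ℤ n y = 0 := by
      rw [hy, Sml_bd_pow, hb, map_zero]
    have e1 : ((sd ℤ (bar (E := E)) (n + 1)) ^ (k + 1)) z = sd ℤ (bar (E := E)) (n + 1) y := by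
      rw [pow_succ', hy]
      rfl
    have e2 := bd_ht ℤ (bar (E := E)) n y
    rw [hy2, map_zero, add_zero] at e2
    refine ⟨D + ht ℤ (bar (E := E)) (n + 1) y, Submodule.add_mem _ hD
      (Sml_pres h2 hU (n + 1) y hy1).2, ?_⟩
    rw [map_add, hD', e1, e2, ← hy]
    abel

theorem sml (h1 : S_sub1) (h2 : S_sub2) (h3 : S_full) : S_sml := by
  intro E V _ _ P U hU
  have hF := h3 E P hU.ne
  refine ⟨?_, ?_, ?_⟩
  · obtain ⟨x, hx⟩ := hU.ne
    obtain ⟨v, hv⟩ := hU.cov x hx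
    exact ⟨fun _ => x, v, fun _ => hv⟩
  · intro z hz he
    obtain ⟨w, hw, hbw⟩ := hF.zero z (supp_mono ℤ (fun u hu => Sml_Fl hU hu) hz) he
    obtain ⟨k, hk⟩ := Sml_ev h1 hU 1 w hw
    refine ⟨_, hk k le_rfl, ?_⟩
    have e := Sml_bd_pow 0 k w
    rw [e, hbw, Sml_pow_zero]
  · intro n z hz hb
    obtain ⟨w, hw, hbw⟩ := hF.succ n z (supp_mono ℤ (fun u hu => Sml_Fl hU hu) hz) hb
    obtain ⟨k, hk⟩ := Sml_ev h1 hU (n + 2) w hw
    obtain ⟨D, hD, hD'⟩ := Sml_hty h2 hU n z hz hb k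
    refine ⟨((sd ℤ (bar (E := E)) (n + 2)) ^ k) w + D, Submodule.add_mem _ (hk k le_rfl) hD, ?_⟩
    have e := Sml_bd_pow (n + 1) k w
    rw [map_add, e, hbw, hD']
    abel

end Pool.Agent.ZSS
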