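import Pool.Agent.Lib.MP_8f66f0_al_ZSS.SpecL

/-!
# Automorphisms act on the nerve
-/

set_option autoImplicit false

namespace Pool.Agent.ZSS

open Pool.Agent.Lib.SingHom

theorem stb : S_stb := by
  intro L _ e s hs
  obtain ⟨hne, A, hA⟩ := hs
  refine ⟨hne.image _, fun x => A (e.symm x), ?_⟩
  rintro _ ⟨v, hv, rfl⟩
  obtain ⟨⟨h1, h2, h3⟩, hv0, hmin⟩ := hA v hv
  refine ⟨⟨fun x y => ?_, fun x hx => ?_, fun C => ?_⟩, ?_, fun w hw => ?_⟩
  · simp only [map_add, map_sub]
    exact h1 _ _
  · exact h2 _ (fun h => hx (by simpa using h))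
  · have h4 : {x | A (e.symm x) ≤ C} = e '' {x | A x ≤ C} := by
      ext x
      constructor
      · intro hx
        exact ⟨e.symm x, hx, e.apply_symm_apply x⟩
      · rintro ⟨y, hy, rfl⟩
        have h5 : A (e.symm (e y)) ≤ C := by rw [e.symm_apply_apply]; exact hy
        exact h5
    rw [h4]
    exact (h3 C).image _
  · intro h
    exact hv0 (by simpa using h)
  · have h6 : A (e.symm (e v)) < 2 * A (e.symm w) := by
      rw [e.symm_apply_apply]
      exact hmin _ (fun h => hw (by simpa using h))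
    exact h6

end Pool.Agent.ZSS
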