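import Pool.Agent.Lib.MP_8f66f0_al_ZSS.Spec

set_option autoImplicit false

namespace Pool.Agent.ZSS

open Pool.Agent.Lib.SingHom

private theorem Sub2_bar {E : Type} [AddCommGroup E] [Module ℝ E] {C : Set E} (hC : Convex ℝ C)
    {m : ℕ} {w : Fin (m + 1) → E} (hw : ∀ i, w i ∈ C) : bar m w ∈ C := by
  unfold bar
  refine hC.sum_mem ?_ ?_ ?_
  · intro i _
    positivity
  · rw [Finset.sum_const, Finset.card_univ, Fintype.card_fin, nsmul_eq_mul, Nat.cast_add,
      Nat.cast_one]
    exact mul_inv_cancel₀ (by positivity)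
  · intro i _
    exact hw i

private theorem Sub2_cone {E : Type} {C : Set E} {b : E} (hb : b ∈ C) (m : ℕ) {z : Ch ℤ E m}
    (hz : z ∈ supp ℤ (Fl C m)) : cone ℤ b m z ∈ supp ℤ (Fl C (m + 1)) := by
  refine supp_map ℤ (cone ℤ b m) ?_ hz
  intro v hv
  rw [cone_single]
  refine single_mem_supp ℤ ?_ 1
  intro i
  refine Fin.cases ?_ (fun j => ?_) i
  · exact hb
  · exact hv j

private theorem Sub2_bd {E : Type} {C : Set E} (m : ℕ) {w : Fin (m + 2) → E}
    (hw : Fl C (m + 1) w) : bd ℤ m (Finsupp.single w 1) ∈ supp ℤ (Fl C m) := by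
  rw [bd_single, bdv]
  refine Submodule.sum_mem _ fun i _ => ?_
  refine Submodule.smul_mem _ _ ?_
  refine single_mem_supp ℤ ?_ 1
  intro j
  exact hw _

theorem sub2 : S_sub2 := by
  intro E _ _ C hC m
  induction m with
  | zero =>
    intro z hz
    refine ⟨?_, ?_⟩
    · rw [sd_zero]
      exact hz
    · rw [ht_zero]
      exact Submodule.zero_mem _
  | succ m ih =>
    intro z hz
    refine ⟨?_, ?_⟩
    · refine supp_map ℤ (sd ℤ (bar (E := E)) (m + 1)) ?_ hz
      intro v hv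
      rw [sd_single]
      exact Sub2_cone (Sub2_bar hC hv) m (ih _ (Sub2_bd m hv)).1
    · refine supp_map ℤ (ht ℤ (bar (E := E)) (m + 1)) ?_ hz
      intro v hv
      rw [ht_single]
      refine Sub2_cone (Sub2_bar hC hv) (m + 1) ?_
      refine Submodule.sub_mem _ ?_ (ih _ (Sub2_bd m hv)).2
      exact single_mem_supp ℤ hv 1

end Pool.Agent.ZSS
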