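import Pool.Agent.Lib.MP_8f66f0_al_ZSS.Sub1
import Pool.Agent.Lib.MP_8f66f0_al_ZSS.Sub2
import Pool.Agent.Lib.MP_8f66f0_al_ZSS.Full
import Pool.Agent.Lib.MP_8f66f0_al_ZSS.Sml
import Pool.Agent.Lib.MP_8f66f0_al_ZSS.Car
import Pool.Agent.Lib.MP_8f66f0_al_ZSS.Hty
import Pool.Agent.Lib.MP_8f66f0_al_ZSS.Conic
import Pool.Agent.Lib.MP_8f66f0_al_ZSS.Nrm
import Pool.Agent.Lib.MP_8f66f0_al_ZSS.Ner
import Pool.Agent.Lib.MP_8f66f0_al_ZSS.Len
import Pool.Agent.Lib.MP_8f66f0_al_ZSS.PA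
import Pool.Agent.Lib.MP_8f66f0_al_ZSS.PB
import Pool.Agent.Lib.MP_8f66f0_al_ZSS.Fin
import Pool.Agent.Lib.MP_8f66f0_al_ZSS.Stb
import Pool.Agent.Lib.MP_8f66f0_al_ZSS.Rank
import Pool.Agent.Lib.MP_8f66f0_al_ZSS.Quo
import Pool.Agent.Lib.MP_8f66f0_al_ZSS.Fix
import Pool.Agent.Lib.MP_8f66f0_al_ZSS.Res
import Pool.Agent.Lib.MP_8f66f0_al_ZSS.Ext
import Pool.Agent.Lib.MP_8f66f0_al_ZSS.Main

/-!
# PROJECT ZERO, part SS: the theorems
-/

set_option autoImplicit false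

namespace Pool.Agent.ZSS

/-- A group which acts on a lattice is in `SS` if all its subgroups with a finite image are. -/
theorem all_T : S_T :=
  zT (sml sub1 sub2 full) (ner car hty con nrm) len pA pB fin stb rank quo fix res ext

/-- A group over `GL_n(ℤ)` is in `SS` if all its subgroups with a finite image are. -/
theorem all_SS : S_SS := zSS all_T

end Pool.Agent.ZSS
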