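import Pool.Agent.Lib.MP_8f66f0_al_ZSS.SpecL

/-!
# PROJECT ZERO, part SS: `S_pA` (the positive definite forms are a nonempty convex set)
-/

set_option autoImplicit false

namespace Pool.Agent.ZSS

open Pool.Agent.Lib.SingHom

private theorem PA_zero {L : Type} [AddCommGroup L] {A : L → ℝ}
    (h : ∀ x y, A (x + y) + A (x - y) = 2 * (A x + A y)) : A 0 = 0 := by
  have h0 := h 0 0
  rw [add_zero, sub_zero] at h0
  linarith

private theorem PA_nonneg {L : Type} [AddCommGroup L] {A : L → ℝ} (hA : A ∈ Fm L) (x : L) :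
    0 ≤ A x := by
  by_cases hx : x = 0
  · rw [hx, PA_zero hA.1]
  · exact (hA.2.1 x hx).le

private theorem PA_nonempty (L : Type) [AddCommGroup L] [Module.Free ℤ L] [Module.Finite ℤ L] :
    (Fm L).Nonempty := by
  classical
  let b := Module.finBasis ℤ L
  refine ⟨fun x => ∑ i, (b.repr x i : ℝ) ^ 2, ?_, ?_, ?_⟩
  · intro x y
    simp only [map_add, map_sub, Finsupp.coe_add, Finsupp.coe_sub, Pi.add_apply, Pi.sub_apply,
      Int.cast_add, Int.cast_sub]
    rw [← Finset.sum_add_distrib, ← Finset.sum_add_distrib, Finset.mul_sum]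
    refine Finset.sum_congr rfl fun i _ => ?_
    ring
  · intro x hx
    have hne : b.repr x ≠ 0 := fun h => hx (b.repr.map_eq_zero_iff.mp h)
    obtain ⟨i, hi⟩ := Finsupp.ne_iff.mp hne
    rw [Finsupp.coe_zero, Pi.zero_apply] at hi
    have h1 : 0 < ((b.repr x i : ℤ) : ℝ) ^ 2 := by
      have : ((b.repr x i : ℤ) : ℝ) ≠ 0 := by exact_mod_cast hi
      positivity
    refine lt_of_lt_of_le h1 ?_
    exact Finset.single_le_sum (f := fun i => ((b.repr x i : ℤ) : ℝ) ^ 2)
      (fun j _ => sq_nonneg _) (Finset.mem_univ i)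
  · intro C
    have hfin : (Set.pi Set.univ fun _ : Fin (Module.finrank ℤ L) =>
        Set.Icc (-⌈C⌉) ⌈C⌉).Finite := Set.Finite.pi fun _ => Set.finite_Icc _ _
    refine Set.Finite.subset (Set.Finite.preimage (b.equivFun.injective.injOn) hfin) ?_
    intro x hx
    rw [Set.mem_preimage, Set.mem_pi]
    intro i _
    rw [Set.mem_ofPred_eq] at hx
    have h1 : ((b.repr x i : ℤ) : ℝ) ^ 2 ≤ C := le_trans
      (Finset.single_le_sum (f := fun i => ((b.repr x i : ℤ) : ℝ) ^ 2)
        (fun j _ => sq_nonneg _) (Finset.mem_univ i)) hx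
    have h2 : ((b.repr x i ^ 2 : ℤ) : ℝ) ≤ (⌈C⌉ : ℝ) := by
      push_cast
      exact le_trans h1 (Int.le_ceil C)
    have h3 : b.repr x i ^ 2 ≤ ⌈C⌉ := by exact_mod_cast h2
    have h4 : |b.repr x i| ≤ b.repr x i ^ 2 := by
      rw [Int.abs_eq_natAbs]
      exact Int.natAbs_le_self_sq _
    rw [Module.Basis.equivFun_apply]
    exact abs_le.mp (le_trans h4 h3)

private theorem PA_convex (L : Type) [AddCommGroup L] : Convex ℝ (Fm L) := by
  intro A hA B hB a b ha hb hab
  refine ⟨?_, ?_, ?_⟩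
  · intro x y
    simp only [Pi.add_apply, Pi.smul_apply, smul_eq_mul]
    linear_combination a * hA.1 x y + b * hB.1 x y
  · intro x hx
    simp only [Pi.add_apply, Pi.smul_apply, smul_eq_mul]
    have h1 := hA.2.1 x hx
    have h2 := hB.2.1 x hx
    rcases ha.eq_or_lt with h | h
    · rw [← h, zero_mul, zero_add]
      have : b = 1 := by rw [← hab, ← h, zero_add]
      rw [this, one_mul]
      exact h2
    · have := mul_pos h h1
      have := mul_nonneg hb h2.le
      linarith
  · intro C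
    have hA0 := PA_nonneg hA
    have hB0 := PA_nonneg hB
    by_cases h : 1 / 2 ≤ a
    · refine (hA.2.2 (2 * C)).subset fun x hx => ?_
      rw [Set.mem_ofPred_eq] at hx ⊢
      simp only [Pi.add_apply, Pi.smul_apply, smul_eq_mul] at hx
      have h1 := mul_nonneg hb (hB0 x)
      have h2 : 0 ≤ (a - 1 / 2) * A x := mul_nonneg (by linarith) (hA0 x)
      nlinarith
    · refine (hB.2.2 (2 * C)).subset fun x hx => ?_
      rw [Set.mem_ofPred_eq] at hx ⊢
      simp only [Pi.add_apply, Pi.smul_apply, smul_eq_mul] at hx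
      have h1 := mul_nonneg ha (hA0 x)
      have h2 : 0 ≤ (b - 1 / 2) * B x := mul_nonneg (by linarith) (hB0 x)
      nlinarith

private theorem PA_uv (L : Type) [AddCommGroup L] (v : L) : Convex ℝ (Uv v) := by
  intro A hA B hB a b ha hb hab
  refine ⟨PA_convex L hA.1 hB.1 ha hb hab, hA.2.1, fun w hw => ?_⟩
  simp only [Pi.add_apply, Pi.smul_apply, smul_eq_mul]
  have h1 := hA.2.2 w hw
  have h2 := hB.2.2 w hw
  rcases ha.eq_or_lt with h | h
  · have hb1 : b = 1 := by rw [← hab, ← h, zero_add]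
    rw [← h, hb1]
    linarith
  · have h3 := mul_lt_mul_of_pos_left h1 h
    have h4 := mul_le_mul_of_nonneg_left h2.le hb
    linarith

/-- **PA.** -/
theorem pA : S_pA := fun L _ _ _ => ⟨PA_nonempty L, PA_convex L, PA_uv L⟩

end Pool.Agent.ZSS
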