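import Pool.Agent.Lib.SingHom.Small

/-!
# PROJECT ZERO, part SS: the statements on chains

`θ : G → GL_n(ℤ)`, all `U ≤ G` with `θ(U)` finite in `SS` ⟹ `G` in `SS` (file `SpecG.lean` has the
statements on groups and lattices). This file has the statements on ordered chains: small chains of a
convex cover, acyclic carriers, order complexes, the nerve. Chains: `Ch ℤ Y n`, `bd`, `eps`, `cone`,
`mp`, `sd`, `ht` of `Lib/SingHom/Ord.lean`; `supp`, `supp_map`, `sdx_pow_mem`, `dist_le_one`,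
`exists_pow_lt` of `Lib/SingHom/Small.lean`; `Sx`, `aff`, `bary`, `Spread` of `Lib/SingHom/Aff.lean`.
-/

set_option autoImplicit false

namespace Pool.Agent.ZSS

open Pool.Agent.Lib.SingHom

/-- A family of tuples of points of `Y`. -/
abbrev TP (Y : Type) : Type := ∀ n : ℕ, (Fin (n + 1) → Y) → Prop

/-- Closed under faces. -/
def Fc {Y : Type} (B : TP Y) : Prop :=
  ∀ (n : ℕ) (w : Fin (n + 2) → Y) (i : Fin (n + 2)), B (n + 1) w → B n (w ∘ i.succAbove)

/-- The augmented chain complex of the tuples in `B` is exact. -/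
structure Acy {Y : Type} (B : TP Y) : Prop where
  ne : ∃ u, B 0 u
  zero : ∀ z ∈ supp ℤ (B 0), eps ℤ z = 0 → ∃ w ∈ supp ℤ (B 1), bd ℤ 0 w = z
  succ : ∀ n, ∀ z ∈ supp ℤ (B (n + 1)), bd ℤ n z = 0 →
    ∃ w ∈ supp ℤ (B (n + 2)), bd ℤ (n + 1) w = z

/-- All tuples of points of `P`. -/
def Fl {X : Type} (P : Set X) : TP X := fun _ w => ∀ i, w i ∈ P

section Small

variable {E V : Type} [AddCommGroup E] [Module ℝ E]

/-- The barycentre of a tuple of points of a real vector space. -/
noncomputable def bar (m : ℕ) (w : Fin (m + 1) → E) : E := ∑ i, ((m : ℝ) + 1)⁻¹ • w i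

/-- A cover of a convex set by convex sets which is open on every simplex. -/
structure Cov (P : Set E) (U : V → Set E) : Prop where
  ne : P.Nonempty
  cvx : Convex ℝ P
  sub : ∀ v, U v ⊆ P
  ucvx : ∀ v, Convex ℝ (U v)
  cov : ∀ x ∈ P, ∃ v, x ∈ U v
  opn : ∀ (m : ℕ) (a : Fin (m + 1) → E), (∀ i, a i ∈ P) → ∀ v,
    IsOpen {t : Sx m | ∑ i, t i • a i ∈ U v}

end Small

/-- The tuples whose points are in a common set `U v`. -/
def Sm {X V : Type} (U : V → Set X) : TP X := fun _ w => ∃ v, ∀ i, w i ∈ U v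

/-- **Sub1.** Iterated barycentric subdivision makes a simplex of `P` small.

PROOF. Let `a : Sx m → E`, `a t = ∑ i, t i • w i`. The sets `{t | a t ∈ U v}` are open (`Cov.opn`) and
cover the compact space `Sx m` (`a t ∈ P` by convexity, `Convex.sum_mem`, then `Cov.cov`). Lebesgue
number (`lebesgue_number_lemma_of_metric` for `Set.univ` compact): there is `δ > 0` such that every ball
of radius `δ` is in one of them. By `exists_pow_lt m` there is `k₀` with `(m/(m+1))^k₀ < δ`, and the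
same for all `k ≥ k₀` (`pow_le_pow_of_le_one`). `sdx_pow_mem` with `d = 1` (`dist_le_one`) for the tuple
`vx i = stdSimplex.vertex i` of the vertices: `(sdx ℤ m m)^k (single vx 1)` is in the span of the tuples
`t` with `Spread ((m/(m+1))^k * 1) t`; all points of such a tuple are in the ball of radius `δ` around
`t 0`, so `a ∘ t` is in `Sm U m`. Apply `mp ℤ a m` : `sd_mp` (with `g = a`, `a (bary m j t) = bar j (a ∘
t)`: unfold, the barycentre has the coordinates `(j+1)⁻¹`, see `Spread.dist_bary` for how this is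
obtained; exchange the sums), iterated `k` times (induction on `k`, `pow_succ'`), gives
`mp ℤ a m ((sdx)^k (single vx 1)) = (sd ℤ bar m)^k (single w 1)`, since `a ∘ vx = w`
(`stdSimplex.vertex_coe`, `Pi.single_apply`). `supp_map` for the map `mp ℤ a m`. -/
def S_sub1 : Prop :=
  ∀ (E V : Type) [AddCommGroup E] [Module ℝ E] (P : Set E) (U : V → Set E), Cov P U →
    ∀ (m : ℕ) (w : Fin (m + 1) → E), (∀ i, w i ∈ P) →
      ∃ k₀ : ℕ, ∀ k ≥ k₀, ((sd ℤ (bar (E := E)) m) ^ k) (Finsupp.single w 1) ∈ supp ℤ (Sm U m)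

/-- **Sub2.** Subdivision and its homotopy preserve the chains of a convex set.

PROOF. Induction on `m`, for a basis element (`supp_map`): `sd_single`, `ht_single`: `cone` of the
barycentre, which is in `C` (`Convex.sum_mem`; the coefficients `(m+1)⁻¹` are nonnegative with sum `1`);
`bd (single w 1)` is in `supp` (`bd_single`, `bdv`, a sum of faces of `w`); `cone b` maps
`supp (Fl C m)` to `supp (Fl C (m+1))` for `b ∈ C` (`supp_map`, `cone_single`, `Fin.cases`). -/
def S_sub2 : Prop :=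
  ∀ (E : Type) [AddCommGroup E] [Module ℝ E] (C : Set E), Convex ℝ C →
    ∀ (m : ℕ) (z : Ch ℤ E m), z ∈ supp ℤ (Fl C m) →
      sd ℤ (bar (E := E)) m z ∈ supp ℤ (Fl C m) ∧ ht ℤ (bar (E := E)) m z ∈ supp ℤ (Fl C (m + 1))

/-- **Full.** All tuples of a nonempty set.

PROOF. `x₀ ∈ P`. `z ∈ supp (Fl P (n+1))`, `bd z = 0`: `w = cone ℤ x₀ (n+1) z`, `bd_cone`. Degree `0`:
`w = cone ℤ x₀ 0 z`, `bd_cone_zero`. (`X` needs no structure.) -/
def S_full : Prop :=
  ∀ (X : Type) (P : Set X), P.Nonempty → Acy (Fl P)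

/-- **Sml.** The small chains of a convex cover are exact.

PROOF. `ne`: `P` is nonempty and covered. Let `z ∈ supp (Sm U (n+1))`, `bd z = 0`. `z` is a chain of `P`
(`supp_mono`, `Cov.sub`), so by `S_full` `z = bd c` with `c` a chain of `P`. By `S_sub1` and finiteness
of the support of `c` there is `k` with `sd^k c ∈ supp (Sm U (n+2))` (`c = ∑ c(w) single w 1`,
`Finsupp.sum_single`; maximum of the `k₀`). `bd (sd^k c) = sd^k z` (`bd_sd`, induction on `k`). Let
`D = ∑_{j<k} ht (sd^j z)`: `sd` and `ht` preserve `supp (Sm U _)`: for a basis element `w` of `Sm U m`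
all points are in one convex set `U v`, so `S_sub2` for `C = U v` and `supp_mono`. `bd_ht` for
`sd^j z`, with `bd (sd^j z) = sd^j (bd z) = 0`: `bd D = z - sd^k z` (induction on `k`). So
`z = bd (sd^k c + D)`. Degree `0`: `sd` is the identity in degree `0` (`sd_zero`), so `z = bd (sd^k c)`
directly. -/
def S_sml : Prop :=
  ∀ (E V : Type) [AddCommGroup E] [Module ℝ E] (P : Set E) (U : V → Set E), Cov P U → Acy (Sm U)

section Carriers

/-- An acyclic carrier `T` for the tuples in `S`. -/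
structure Carr {Y Z : Type} (S : TP Y) (T : ∀ n : ℕ, (Fin (n + 1) → Y) → TP Z) : Prop where
  mono : ∀ (n : ℕ) (w : Fin (n + 2) → Y) (i : Fin (n + 2)), S (n + 1) w →
    ∀ (m : ℕ) (u : Fin (m + 1) → Z), T n (w ∘ i.succAbove) m u → T (n + 1) w m u
  acy : ∀ (n : ℕ) (w : Fin (n + 1) → Y), S n w → Acy (T n w)

/-- **Car.** There is a chain map which is carried by an acyclic carrier.

PROOF. Define `f 0 (single w 1) = single u 1` with `u` chosen in `T 0 w 0` (`Acy.ne`, `Classical.epsilon`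
or `if h : ∃ u, _ then _ else 0`), `f (n+1) := Finsupp.linearCombination ℤ (fun w => fill (n+1) w (f n
(bd ℤ n (single w 1))))`, where `fill n w y` is a chain `x ∈ supp (T n w n)` with `bd x = y` if there is
one, and `0` otherwise. By induction on `n`, for `S (n+1) w`: `bd (f (n+1) (single w 1)) = f n (bd (single
w 1))` and `f (n+1) (single w 1) ∈ supp (T (n+1) w (n+1))`: `y = f n (bd (single w 1))` is in
`supp (T (n+1) w n)` (`bd_single`, each face `w ∘ i.succAbove` is in `S n`, `Carr.mono`), and for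
`n = 0` `eps y = eps (bd (single w 1)) = 0` (`eps_bd`), for `n = n' + 1` `bd y = f n' (bd (bd (single w
1))) = 0` (`bd_bd`; the induction hypothesis for all chains in `supp (S n)` by `supp_map` applied to the
difference of the two linear maps and `N = ⊥`), so `Acy.zero` or `Acy.succ` gives the chain. -/
def S_car : Prop :=
  ∀ (Y Z : Type) (S : TP Y) (T : ∀ n : ℕ, (Fin (n + 1) → Y) → TP Z), Fc S → Carr S T →
    ∃ f : ∀ n : ℕ, Ch ℤ Y n →ₗ[ℤ] Ch ℤ Z n,
      (∀ n w, S n w → f n (Finsupp.single w 1) ∈ supp ℤ (T n w n)) ∧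
      (∀ z ∈ supp ℤ (S 0), eps ℤ (f 0 z) = eps ℤ z) ∧
      (∀ n, ∀ z ∈ supp ℤ (S (n + 1)), bd ℤ n (f (n + 1) z) = f n (bd ℤ n z))

/-- **Hty.** Two chain maps which are carried by the same acyclic carrier are homotopic.

PROOF. As `S_car`: `h 0 (single w 1)` = a chain `x ∈ supp (T 0 w 1)` with `bd x = f 0 (single w 1) - g 0
(single w 1)` (`Acy.zero`), `h (n+1) (single w 1)` = a chain `x ∈ supp (T (n+1) w (n+2))` with `bd x = f
(n+1) (single w 1) - g (n+1) (single w 1) - h n (bd (single w 1))` (if there is one, otherwise `0`). The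
right side `y` is in `supp (T (n+1) w (n+1))` (`Carr.mono`), and `bd y = 0`: `bd f = f bd`, `bd g = g bd`,
`bd (h n x) = f n x - g n x - h (n-1) (bd x)` for `x = bd (single w 1)` (which is in `supp (S n)`), `bd
bd = 0`; for `n = 0`: `bd (h 0 x) = f 0 x - g 0 x`. -/
def S_hty : Prop :=
  ∀ (Y Z : Type) (S : TP Y) (T : ∀ n : ℕ, (Fin (n + 1) → Y) → TP Z), Fc S → Carr S T →
    ∀ f g : ∀ n : ℕ, Ch ℤ Y n →ₗ[ℤ] Ch ℤ Z n,
      (∀ n w, S n w → f n (Finsupp.single w 1) ∈ supp ℤ (T n w n)) →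
      (∀ n w, S n w → g n (Finsupp.single w 1) ∈ supp ℤ (T n w n)) →
      (∀ z ∈ supp ℤ (S 0), eps ℤ (f 0 z) = eps ℤ (g 0 z)) →
      (∀ n, ∀ z ∈ supp ℤ (S (n + 1)), bd ℤ n (f (n + 1) z) = f n (bd ℤ n z)) →
      (∀ n, ∀ z ∈ supp ℤ (S (n + 1)), bd ℤ n (g (n + 1) z) = g n (bd ℤ n z)) →
      ∃ h : ∀ n : ℕ, Ch ℤ Y n →ₗ[ℤ] Ch ℤ Z (n + 1),
        (∀ n w, S n w → h n (Finsupp.single w 1) ∈ supp ℤ (T n w (n + 1))) ∧
        (∀ z ∈ supp ℤ (S 0), bd ℤ 0 (h 0 z) = f 0 z - g 0 z) ∧
        (∀ n, ∀ z ∈ supp ℤ (S (n + 1)),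
          bd ℤ (n + 1) (h (n + 1) z) + h n (bd ℤ n z) = f (n + 1) z - g (n + 1) z)

end Carriers

section Orders

variable {Z : Type} [PartialOrder Z]

/-- The weakly increasing tuples of elements of `K`. -/
def Mo (K : Set Z) : TP Z := fun _ u => Monotone u ∧ ∀ i, u i ∈ K

/-- The strictly increasing tuples of elements of `K`. -/
def St (K : Set Z) : TP Z := fun _ u => StrictMono u ∧ ∀ i, u i ∈ K

end Orders

/-- **Con.** The conical contraction `y ≤ f y ≥ c`.

PROOF. Prism operator `H 0 (single v 1) = cone ℤ (v 0) 0 (mp ℤ f 0 (single v 1))`, `H (n+1) (single v 1)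
= cone ℤ (v 0) (n+1) (mp ℤ f (n+1) (single v 1) - H n (single (Fin.tail v) 1))` (`linearCombination`).
Then `bd 0 (H 0 z) = mp f z - z` and `bd (n+1) (H (n+1) z) + H n (bd n z) = mp f z - z`: on a basis
element `v = Fin.cons b t`, by `bd_cone_single`, `bd_cone`, `bd_mp`, `cone_mp` and the induction
hypothesis `bd (H n (single t 1)) = mp f (single t 1) - single t 1 - H (n-1) (bd (single t 1))`:
`bd H v = (f v - H t) - cone b (bd f v - f t + t + H bd t)`, `H (cone b c) = cone b (f (cone b c) - H c)`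
(linear in `c`), `H (bd v) = H t - cone b (f (cone b (bd t)) - H (bd t))`, the sum is `f v - cone b t =
f v - v`, since `bd v = t - cone b (bd t)`. For `v` in `Mo K` all tuples of `H v` are in `Mo K`:
`v_0 ≤ ... ≤ v_i ≤ f v_i ≤ ... ≤ f v_n` (prove by induction on `n` that `H n (single v 1)` is in the span
of the `u` in `Mo K` with `v 0 ≤ u j` for all `j`; `cone b` maps the tuples `u` in `Mo K` with `b ≤ u j`
for all `j` to such tuples, `Fin.cases`). Let `z` be a cycle in `supp (Mo K (n+1))`: `mp f z` consists of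
the tuples `f ∘ v` in `Mo K` with `c ≤ f (v j)`, so `cone c (mp f z) ∈ supp (Mo K (n+2))` with `bd` =
`mp f z` (`bd_cone`, `bd_mp`), and `w = cone c (mp f z) - H z` has `bd w = z`. Degree `0`: the same with
`bd_cone_zero` and `eps (mp f z) = eps z = 0`. `ne`: `c`. -/
def S_con : Prop :=
  ∀ (Z : Type) [PartialOrder Z] (K : Set Z) (f : Z → Z) (c : Z), c ∈ K → (∀ y ∈ K, f y ∈ K) →
    (∀ y ∈ K, y ≤ f y) → (∀ y ∈ K, c ≤ f y) → (∀ y ∈ K, ∀ y' ∈ K, y ≤ y' → f y ≤ f y') →
    Acy (Mo K)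

/-- **Nrm.** Normalization: from weakly to strictly increasing tuples.

PROOF. Let `p n : Ch ℤ Z n → Ch ℤ Z n` be the linear map with `single u 1 ↦ single u 1` for `StrictMono u`
and `single u 1 ↦ 0` otherwise. For `u : Fin (n+2) → Z` monotone: `bd (p (n+1) (single u 1)) = p n (bd
(single u 1))`. If `u` is strictly monotone all faces are. If not, `u` is not injective
(`Monotone.strictMono_of_injective`) and there is `j : Fin (n+1)` with `u j.castSucc = u j.succ`
(otherwise `Fin.strictMono_iff_lt_succ`). The faces `i ≠ j.castSucc, j.succ` are not injective (both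
`j.castSucc` and `j.succ` are in the image of `i.succAbove`, `Fin.exists_succAbove_eq`), so `p` kills
them; the faces `j.castSucc` and `j.succ` are the same tuple (for `k`: the two values of `succAbove`
differ only at `k = j`, where they are `j.succ` and `j.castSucc`) with the opposite signs. Then `p z = z`
for `z ∈ supp (St K n)`, `p` maps `supp (Mo K n)` to `supp (St K n)`. A cycle `z ∈ supp (St K (n+1))` is
in `supp (Mo K (n+1))`, `z = bd w`, `z = p z = p (bd w) = bd (p w)`. Degree `0` the same. `ne`: a tuple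
`Fin 1 → Z` is strictly monotone. -/
def S_nrm : Prop :=
  ∀ (Z : Type) [PartialOrder Z] (K : Set Z), Acy (Mo K) → Acy (St K)

/-- The nerve: the nonempty sets of indices whose sets have a common point. -/
def Ne {X V : Type} (U : V → Set X) : Set (Set V) := {s | s.Nonempty ∧ ∃ x, ∀ v ∈ s, x ∈ U v}

/-- **Ner.** The nerve theorem.

PROOF. By `S_nrm` it is enough that `Acy (Mo (Ne U))`. For `w : Fin (n+1) → X` let `K_w = {s | s.Nonempty
∧ ∃ i, ∀ v ∈ s, w i ∈ U v} ⊆ Ne U` and `T n w = Mo K_w`. `Carr (Sm U) T`: `mono` is clear (`K` of a face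
is contained in `K_w`); `acy`: `w` in `Sm U n`, all `w i ∈ U v₀`: `S_con` for `K_w`, `f s = insert v₀ s`,
`c = {v₀}`. `Fc (Sm U)`. `S_car` gives `ψ`. Choose `x : Set V → X` with `x s ∈ U v` for all `v ∈ s`, `s ∈
Ne U` (`X` is nonempty by `Acy.ne`), `φ n = mp ℤ x n`; for `u` in `Mo (Ne U) n` the tuple `x ∘ u` is in
`Sm U n` (take `v ∈ u 0`; `v ∈ u i` for all `i`). `S_hty` for `S = Mo (Ne U)`, `T' n u = T n (x ∘ u)`,
`f = ψ ∘ φ`, `g = id` (`u` is in `T' n u n`, as `u i ∈ K_(x ∘ u)` with the index `i`; `eps (mp x z) = eps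
z`; `bd_mp`): `h`. For a cycle `z ∈ supp (Mo (Ne U) (n+1))`: `φ z` is a cycle in `supp (Sm U (n+1))`, `φ z
= bd y`, `ψ φ z = bd (ψ y)`, and `bd (h z) = ψ φ z - z`, so `z = bd (ψ y - h z)`; all chains are in
`supp (Mo (Ne U) _)`, since `T n w m u → Mo (Ne U) m u` (`supp_map`, `supp_mono`). Degree `0` the same.
`ne`: `Acy.ne` of `Sm U` gives `x ∈ U v`, `{v} ∈ Ne U`. -/
def S_ner : Prop :=
  ∀ (X V : Type) (U : V → Set X), Acy (Sm U) → Acy (St (Ne U))

/-- **Len.** Bounded length.

PROOF. `u m ∈ Ne U`, so `u m ⊆ {v | x ∈ U v}` is finite with at most `N` elements. By induction on `i`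
the finite set `u i` has at least `i + 1` elements (`Set.ncard_lt_ncard`, `Set.one_le_ncard_iff_nonempty`
for `u 0`), so `m + 1 ≤ N`. -/
def S_len : Prop :=
  ∀ (X V : Type) (U : V → Set X) (N : ℕ),
    (∀ x, {v | x ∈ U v}.Finite ∧ {v | x ∈ U v}.ncard ≤ N) →
    ∀ (m : ℕ) (u : Fin (m + 1) → Set V), St (Ne U) m u → m < N

end Pool.Agent.ZSS
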