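import Pool.Agent.Lib.MP_8f66f0_al_ZSS.SpecL
import Pool.Agent.Lib.MP_8f66f0_al_FH.VN
import Pool.Agent.Lib.MP_8f66f0_al_HierZ.All

/-!
# PROJECT ZERO, part SS: the statements on groups

The main results are `S_T` (for a lattice) and `S_SS` (for matrices).
-/

set_option autoImplicit false

namespace Pool.Agent.ZSS

open Pool.Agent.Lib.SingHom

/-- **Res.** A group which acts on an exact complex of tuples of bounded length with stabilizers in
`SS`.

PROOF. `Hier.ss_exp (𝒞 := fun C => SS C)`. `F n := supp ℤ (B n)` with the action of `g` by `mp ℤ (g • ·)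
n` (`supp_map`, `mp_single`) is a permutation module: basis `single u 1`, `u ∈ {u // B n u}`
(`Finsupp.supportedEquivFinsupp`), `(g • u) j = g • u j`; the stabilizers are in `SS` (they fix all
`u j`). `Z n` = the cycles in `supp ℤ (B n)` (`eps z = 0` for `n = 0`, `bd z = 0` for `n > 0`), stable by
`bd_mp`. By induction on `k`: `n + k + 1 = N → ExP Γ SS k (Z n)`: for `k = 0` `Z n = bd (supp (B (n+1)))
= 0` since `B (n+1)` is empty (`n + 1 = N`): the permutation module of the empty set; step: `0 → Z (n+1) →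
F (n+1) → Z n → 0`, `Acy.zero`, `Acy.succ`, `Fc` (so that `bd` maps `F (n+1)` to `F n`). Finally `0 → Z 0 →
F 0 → ℤ → 0` by `eps` (onto by `Acy.ne`), `N > 0` by `Acy.ne`. See `GLC/SsB.lean` (`exp_cy`, `ssB`) for
the same proof with a contraction. (The case distinction `n = 0`, `n > 0` can be avoided by the family
`Z n = {z ∈ supp (B n) | ∃ w ∈ supp (B (n+1)), bd w = z}` of boundaries.) -/
def S_res : Prop :=
  ∀ (Γ Z : Type) [Group Γ] [MulAction Γ Z] (B : TP Z) (N : ℕ), Acy B → Fc B →
    (∀ n u (g : Γ), B n u → B n (fun j => g • u j)) → (∀ n u, B n u → n < N) →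
    (∀ n u, B n u → ∀ H : Subgroup Γ, (∀ g ∈ H, ∀ j, g • u j = u j) → Hier.SS H) → Hier.SS Γ

/-- **Ext.** Automorphisms which are finite on `W` and on `L ⧸ W`.

PROOF. Let `N` be the subgroup of the `q ∈ Q = θ.range` with `q w = w` for all `w ∈ W` and `q x - x ∈ W`
for all `x`. `N` is normal, and commutative: `q (q' x) = q (x + (q' x - x)) = q x + q' x - x`, symmetric
in `q`, `q'`. `Q ⧸ N` is finite: if `q, q' ∈ Q` have the same restriction to `W` and the same `x ↦ mk (q
x)` then `q⁻¹ q' ∈ N` (`q w = q' w`; `q' x - q x ∈ W` and `q⁻¹ W ⊆ W`), so `q ↦ (f, f')` induces an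
injection of `Q ⧸ N` to the product of the two finite sets (`Quotient.out` of a class is enough).
`EAm.ext N (EAm.ab _) (EAm.fin _)`. -/
def S_ext : Prop :=
  ∀ (L : Type) [AddCommGroup L] (W : Submodule ℤ L) (U : Type) [Group U] (θ : U →* (L ≃ₗ[ℤ] L)),
    (∀ u, ∀ x ∈ W, θ u x ∈ W) → {f : W → L | ∃ u, ∀ x, f x = θ u x}.Finite →
    {f : L → L ⧸ W | ∃ u, ∀ x, f x = Submodule.Quotient.mk (θ u x)}.Finite → FH.EAm θ.range

/-- **T.** THE THEOREM for a lattice.

PROOF. First (`Frm`) the hypothesis for subgroups gives it for injective `i : U → G` with `(θ.comp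
i).range` finite (`U ≃* i.range`, `Hier.ss_iso`). Induction on `finrank ℤ L` (for all `L`, `G`, `θ` with the
hypothesis in the form `∀ (U : Type) [Group U] (i : U →* G), Injective i → Finite (θ.comp i).range → SS
U`). If `L` is a subsingleton, `L ≃ₗ[ℤ] L` is finite: `i = id`. Otherwise `Cov (Fm L) Uv` by `S_pA`, `S_pB`,
so `Acy (St (Ne Uv))` by `S_sml`, `S_ner`. `S_res` for `Γ = G`, `Z = Set L` with `g • s = θ g '' s`, `B =
St (Ne Uv)`, `N` of `S_fin`, `S_len`, `S_stb`. Let `H` fix all `u j`, `s = u 0`: `s` is finite (`S_fin`),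
nonempty, its elements are nonzero. `S_fix`, `S_quo` for `θ.comp H.subtype` and `W = sat s`, `S_rank`, and
the induction hypothesis for `L ⧸ W`, `H`, `θ'`: let `i : U → H` be injective with `(θ'.comp i).range`
finite. `S_ext` for `θ.comp (H.subtype.comp i)` gives `EAm` of its range `Q` (the functions `x ↦ mk (θ u
x) = θ' (i u) (mk x)` are determined by `θ' (i u)`). `FH.c_of_rel FH.closedV_ss hQ (rangeRestrict)`: for `V
≤ U` with finite image in `Q` use the hypothesis for `V → U → H → G`. -/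
def S_T : Prop :=
  ∀ (L : Type) [AddCommGroup L] [Module.Free ℤ L] [Module.Finite ℤ L] (G : Type) [Group G]
    (θ : G →* (L ≃ₗ[ℤ] L)), (∀ U : Subgroup G, Finite (U.map θ) → Hier.SS U) → Hier.SS G

/-- THE THEOREM for matrices.

PROOF. `S_T` for `L = Fin n → ℤ` and the composition with the injective homomorphism `GL (Fin n) ℤ →*
((Fin n → ℤ) ≃ₗ[ℤ] (Fin n → ℤ))`, `g ↦ (x ↦ g.1 *ᵥ x)`. -/
def S_SS : Prop :=
  ∀ (n : ℕ) (G : Type) [Group G] (θ : G →* GL (Fin n) ℤ),
    (∀ U : Subgroup G, Finite (U.map θ) → Hier.SS U) → Hier.SS G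

end Pool.Agent.ZSS
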