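import Pool.Agent.Lib.MP_8f66f0_al_ZSS.Spec

/-!
# PROJECT ZERO, part SS: the statements on lattices

`L` is a lattice (a finitely generated free abelian group). `Fm L` is the convex set of the positive
definite quadratic forms, `Uv v` the open convex set of the forms for which `v` is almost minimal.
-/

set_option autoImplicit false

namespace Pool.Agent.ZSS

open Pool.Agent.Lib.SingHom

section

variable (L : Type) [AddCommGroup L]

/-- Positive definite quadratic forms on `L`, as functions. -/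
def Fm : Set (L → ℝ) :=
  {A | (∀ x y, A (x + y) + A (x - y) = 2 * (A x + A y)) ∧ (∀ x, x ≠ 0 → 0 < A x) ∧
    ∀ C : ℝ, {x | A x ≤ C}.Finite}

variable {L}

/-- The forms `A` with `A v < 2 A w` for all `w ≠ 0`. -/
def Uv (v : L) : Set (L → ℝ) := {A | A ∈ Fm L ∧ v ≠ 0 ∧ ∀ w, w ≠ 0 → A v < 2 * A w}

/-- The pure closure of the span of `s`. -/
def sat (s : Set L) : Submodule ℤ L where
  carrier := {x | ∃ n : ℤ, n ≠ 0 ∧ n • x ∈ Submodule.span ℤ s}
  zero_mem' := ⟨1, one_ne_zero, by rw [smul_zero]; exact Submodule.zero_mem _⟩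
  add_mem' := by
    rintro a b ⟨n, hn, ha⟩ ⟨m, hm, hb⟩
    refine ⟨n * m, mul_ne_zero hn hm, ?_⟩
    rw [smul_add]
    refine Submodule.add_mem _ ?_ ?_
    · rw [mul_comm, mul_smul]
      exact Submodule.smul_mem _ _ ha
    · rw [mul_smul]
      exact Submodule.smul_mem _ _ hb
  smul_mem' := by
    rintro c x ⟨n, hn, hx⟩
    refine ⟨n, hn, ?_⟩
    rw [smul_comm]
    exact Submodule.smul_mem _ _ hx

end

/-- **PA.**

PROOF. Nonempty: `b : Basis (Fin n) ℤ L` (`Module.finBasis ℤ L`), `A x = ∑ i, (b.repr x i : ℝ) ^ 2`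
(parallelogram: `ring` for each `i`; positive: some coordinate is nonzero; `A x ≤ C` implies `|x i| ≤
⌈C⌉ + 1` for all `i`, since `|x i| ≤ x i ^ 2` for integers; finitely many functions `Fin n → ℤ` with values
in `Set.Icc`, `Set.Finite.pi'`, preimage under the injective `b.repr`/`b.equivFun`). Convex: `A, B ∈ Fm`,
`a + b = 1`, `a, b ≥ 0`: parallelogram law `linear_combination`; positive: one of `a`, `b` is positive and
`A x, B x > 0`; sublevel sets: `B x ≥ 0` for all `x` (`B 0 = 0` by the parallelogram law for `0, 0`); one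
of `a`, `b` is `≥ 1/2`, say `a`: `{aA + bB ≤ C} ⊆ {A ≤ 2 C}` (if `a A x ≤ C` then `A x ≤ 2 a A x ≤ 2 C`).
`Uv v`: the same and `a A v + b B v < 2 (a A w + b B w)`. -/
def S_pA : Prop :=
  ∀ (L : Type) [AddCommGroup L] [Module.Free ℤ L] [Module.Finite ℤ L],
    (Fm L).Nonempty ∧ Convex ℝ (Fm L) ∧ ∀ v : L, Convex ℝ (Uv v)

/-- **PB.**

PROOF. Cover: `x₀ ≠ 0`; the finite set `{x | A x ≤ A x₀} \ {0}` contains `x₀`, let `v` be an element with
`A v` minimal (`Set.exists_min_image`); then `A v ≤ A w` for all `w ≠ 0` (if `A w > A x₀` also), so `A v <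
2 A w`. Open: if `v = 0` the set is empty. All `∑ i, t i • a i` are in `Fm L` (`Convex.sum_mem`; convexity
is proved in `S_pA`, which may be used: it is a hypothesis here). Let `M = ∑ i, a i v` and `W = ⋃ i, {x |
a i x ≤ M}`, a finite set. The set in question is `⋂ w ∈ W \ {0}, {t | ∑ i, t i * a i v < 2 * ∑ i, t i * a
i w}`: for `w ∉ W` the inequality holds, as `∑ t i * a i v ≤ M < ∑ t i * a i w` (`t i ≤ 1`, `a i v ≥ 0`,
`∑ t i = 1`) and the right side is positive. A finite intersection of open sets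
(`Set.Finite.isOpen_biInter`, `isOpen_lt`, continuity of `t ↦ t i`). -/
def S_pB : Prop :=
  ∀ (L : Type) [AddCommGroup L] [Nontrivial L], Convex ℝ (Fm L) →
    (∀ A ∈ Fm L, ∃ v, A ∈ Uv v) ∧
    ∀ (m : ℕ) (a : Fin (m + 1) → L → ℝ), (∀ i, a i ∈ Fm L) → ∀ v,
      IsOpen {t : Sx m | ∑ i, t i • a i ∈ Uv v}

/-- **Fin.** At most `2 |L/2L|` almost minimal vectors.

PROOF. Let `F = {v | A ∈ Uv v}`. If `F` is nonempty then `A ∈ Fm L`; `F` is contained in a sublevel set
(`v, w ∈ F`: `A w < 2 A v`), so it is finite. Let `v, w ∈ F` with `v - w ∈ 2 L`, `v - w = 2 b`, `a = v -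
b = w + b`: `v = a + b`, `w = a - b`, `A v + A w = 2 (A a + A b)`. If `a ≠ 0` and `b ≠ 0` then `A v < 2 A
a` and `A w < 2 A b`, a contradiction. So `w = v` or `w = -v`. `L ⧸ (2 L)` is finite (`2 L` = the range
of multiplication by `2`, `Module.finite_of_fg_torsion` or: a finitely generated abelian group which is
killed by `2`; or a quotient/image of `Fin n → ZMod 2` by a basis; any bound `N` will do). The map `F → L ⧸
2 L` has fibres with at most two elements (`Finset.card_le_mul_card_image` or choose: `N = 2 * Nat.card (L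
⧸ 2L)`). -/
def S_fin : Prop :=
  ∀ (L : Type) [AddCommGroup L] [Module.Free ℤ L] [Module.Finite ℤ L],
    ∃ N : ℕ, ∀ A : L → ℝ, {v | A ∈ Uv v}.Finite ∧ {v | A ∈ Uv v}.ncard ≤ N

/-- **Stb.** The automorphisms act on the nerve.

PROOF. `s ⊆ {v | A ∈ Uv v}`: `A' = A ∘ e.symm` is in `Uv (e v)` for all `v ∈ s` (`A' (e v) = A v < 2 A
(e.symm w)`; `{x | A' x ≤ C}` is the image of `{x | A x ≤ C}`). -/
def S_stb : Prop :=
  ∀ (L : Type) [AddCommGroup L] (e : L ≃ₗ[ℤ] L) (s : Set L),
    s ∈ Ne (Uv (L := L)) → e '' s ∈ Ne (Uv (L := L))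

/-- **Rank.**

PROOF. `L ⧸ sat s` is finitely generated and torsion-free: `n • mk x = 0`, `n ≠ 0` gives `n • x ∈ sat s`,
`k • n • x ∈ span s` with `k ≠ 0`, so `x ∈ sat s`. So it is free (`Module.free_of_finite_type_torsion_free'`,
class `Module.IsTorsionFree ℤ _`). `Submodule.finrank_quotient_add_finrank`; `0 < finrank (sat s)`: `v ∈
sat s`, `v ≠ 0`, `Module.finrank_pos` (`sat s` is nontrivial and torsion-free, finite as a submodule of a
noetherian module). -/
def S_rank : Prop :=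
  ∀ (L : Type) [AddCommGroup L] [Module.Free ℤ L] [Module.Finite ℤ L] (s : Set L),
    (∃ v ∈ s, v ≠ 0) → Module.Free ℤ (L ⧸ sat s) ∧
      Module.finrank ℤ (L ⧸ sat s) < Module.finrank ℤ L

/-- **Quo.** The action on the quotient.

PROOF. `θ' h = Submodule.Quotient.equiv W W (θ h) _`: `(W.map (θ h)) = W`, since `θ h` and `θ h⁻¹` map `W` to `W`. `map_one`, `map_mul` by
`Submodule.Quotient.induction_on` (`(θ (g * h)) x = θ g (θ h x)`, `LinearEquiv.mul_apply`). -/
def S_quo : Prop :=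
  ∀ (L : Type) [AddCommGroup L] (W : Submodule ℤ L) (H : Type) [Group H] (θ : H →* (L ≃ₗ[ℤ] L)),
    (∀ h, ∀ x ∈ W, θ h x ∈ W) →
    ∃ θ' : H →* ((L ⧸ W) ≃ₗ[ℤ] (L ⧸ W)), ∀ h x,
      θ' h (Submodule.Quotient.mk x) = Submodule.Quotient.mk (θ h x)

/-- **Fix.** A group which maps a finite set `s` to itself acts on `sat s` through a finite group.

PROOF. Stable: `θ h` maps `span s` to `span s` (`Submodule.span_induction` or `Submodule.map_span_le` for
`(θ h).toLinearMap`), `n • θ h x = θ h (n • x)`. Finite: if `θ h v = θ h' v` for all `v ∈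
s` then for all `v ∈ span s`, then for all `x ∈ sat s`: `n • (θ h x - θ h' x) = 0`, `n ≠ 0`, `L` is
torsion-free (`smul_eq_zero`, `Module.Free` over `ℤ`). So the function `x ↦ θ h x` on `sat s` is
determined by the function `s → s`, `v ↦ θ h v`; there are finitely many (`Set.Finite.of_injOn`/a
surjection from a subset of the finite type `s → s`). -/
def S_fix : Prop :=
  ∀ (L : Type) [AddCommGroup L] [Module.Free ℤ L] (s : Set L), s.Finite →
    ∀ (H : Type) [Group H] (θ : H →* (L ≃ₗ[ℤ] L)), (∀ h, ∀ v ∈ s, θ h v ∈ s) →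
      (∀ h, ∀ x ∈ sat s, θ h x ∈ sat s) ∧ {f : sat s → L | ∃ h, ∀ x, f x = θ h x}.Finite

end Pool.Agent.ZSS
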