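import Pool.Agent.Lib.MP_8f66f0_al_ZSS.Spec

/-!
# PROJECT ZERO, part SS, Sub1: subdivision makes simplices small
-/

set_option autoImplicit false

namespace Pool.Agent.ZSS

open Pool.Agent.Lib.SingHom

section

variable {E : Type} [AddCommGroup E] [Module ℝ E]

/-- the affine map of the simplex -/
private noncomputable def Sub1_a {m : ℕ} (w : Fin (m + 1) → E) (t : Sx m) : E := ∑ i, t i • w i

private theorem Sub1_bary {m : ℕ} (w : Fin (m + 1) → E) (n : ℕ) (v : Fin (n + 1) → Sx m) :
    Sub1_a w (bary m n v) = bar n (Sub1_a w ∘ v) := by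
  have e1 : ∀ k, bary m n v k = ∑ i, ((n : ℝ) + 1)⁻¹ * v i k := by
    intro k
    rw [bary, aff_apply]
    apply Finset.sum_congr rfl
    intro i _
    congr 1
    show ((Fintype.card (Fin (n + 1)) : ℝ))⁻¹ = _
    rw [Fintype.card_fin]
    push_cast
    rfl
  unfold Sub1_a bar
  simp only [e1, Function.comp_apply, Finset.sum_smul, Finset.smul_sum, mul_smul]
  rw [Finset.sum_comm]

private theorem Sub1_vertex {m : ℕ} (w : Fin (m + 1) → E) (i : Fin (m + 1)) :
    Sub1_a w (stdSimplex.vertex i) = w i := by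
  unfold Sub1_a
  simp only [stdSimplex.vertex_coe, Pi.single_apply, ite_smul, one_smul, zero_smul]
  rw [Finset.sum_ite_eq' Finset.univ i]
  simp

end

theorem sub1 : S_sub1 := by
  intro E V _ _ P U hU m w hw
  have hopn : ∀ v, IsOpen {t : Sx m | Sub1_a w t ∈ U v} := hU.opn m w hw
  have hcov : (Set.univ : Set (Sx m)) ⊆ ⋃ v, {t : Sx m | Sub1_a w t ∈ U v} := by
    intro t _
    have hP : Sub1_a w t ∈ P := by
      apply hU.cvx.sum_mem
      · intro i _
        exact stdSimplex.zero_le t i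
      · exact stdSimplex.sum_eq_one t
      · intro i _
        exact hw i
    obtain ⟨v, hv⟩ := hU.cov _ hP
    exact Set.mem_iUnion.2 ⟨v, hv⟩
  have hcpt : IsCompact (Set.univ : Set (Sx m)) := by
    have : CompactSpace (Sx m) := isCompact_iff_compactSpace.1 (isCompact_stdSimplex ℝ _)
    exact isCompact_univ
  obtain ⟨δ, hδ, hball⟩ := lebesgue_number_lemma_of_metric hcpt hopn hcov
  obtain ⟨k₀, hk₀⟩ := exists_pow_lt m hδ
  refine ⟨k₀, fun k hk => ?_⟩
  have hlt : ((m : ℝ) / (m + 1)) ^ k * 1 < δ := by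
    rw [mul_one]
    refine lt_of_le_of_lt (pow_le_pow_of_le_one (by positivity) ?_ hk) hk₀
    rw [div_le_one (by positivity)]
    linarith
  have hmem := sdx_pow_mem ℤ m k (fun i : Fin (m + 1) => (stdSimplex.vertex i : Sx m))
    zero_le_one (fun i j => dist_le_one _ _)
  have h1 := supp_map ℤ (N := supp ℤ (Sm U m)) (mp ℤ (Sub1_a w) m) (fun t ht => by
    rw [mp_single]
    apply single_mem_supp
    obtain ⟨v, hv⟩ := hball (t 0) (Set.mem_univ _)
    refine ⟨v, fun i => ?_⟩
    exact hv (Metric.mem_ball.2 ((ht i 0).trans_lt hlt))) hmem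
  have h2 : ∀ (j : ℕ) (c : Ch ℤ (Sx m) m), mp ℤ (Sub1_a w) m (((sdx ℤ m m) ^ j) c) =
      ((sd ℤ (bar (E := E)) m) ^ j) (mp ℤ (Sub1_a w) m c) := by
    intro j
    induction j with
    | zero => intro c; rfl
    | succ j ih =>
      intro c
      rw [pow_succ, pow_succ, Module.End.mul_apply, Module.End.mul_apply, ih]
      congr 1
      exact sd_mp ℤ (bary m) (bar (E := E)) (Sub1_a w) (Sub1_bary w) m c
  rw [h2, mp_single] at h1
  have h3 : (Sub1_a w ∘ fun i : Fin (m + 1) => (stdSimplex.vertex i : Sx m)) = w := by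
    funext i
    exact Sub1_vertex w i
  rw [h3] at h1
  exact h1

end Pool.Agent.ZSS
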